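import Pool.Agent.H.MP_144feb_an.Lang

/-!
# Basic facts on realisations of random substitutions
-/

namespace Pool.Agent.H.MP_144feb_an

variable {A : Type*}

theorem mem_real_append (θ : A → Set (List A)) (u v w : List A) :
    w ∈ real θ (u ++ v) ↔ ∃ w1 ∈ real θ u, ∃ w2 ∈ real θ v, w = w1 ++ w2 := by
  induction u generalizing w with
  | nil => simp [real]
  | cons a u ih =>
    constructor
    · rintro ⟨x, hx, y, hy, rfl⟩
      obtain ⟨w1, h1, w2, h2, rfl⟩ := (ih y).1 hy
      exact ⟨x ++ w1, ⟨x, hx, w1, h1, rfl⟩, w2, h2, by simp⟩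
    · rintro ⟨w1, ⟨x, hx, y, hy, rfl⟩, w2, h2, rfl⟩
      exact ⟨x, hx, y ++ w2, (ih _).2 ⟨y, hy, w2, h2, rfl⟩, by simp⟩

theorem mem_iter_append (θ : A → Set (List A)) (k : ℕ) (u v w : List A) :
    w ∈ iter θ k (u ++ v) ↔ ∃ w1 ∈ iter θ k u, ∃ w2 ∈ iter θ k v, w = w1 ++ w2 := by
  induction k generalizing w with
  | zero => simp [iter]
  | succ k ih =>
    constructor
    · rintro ⟨x, hx, hw⟩
      obtain ⟨x1, h1, x2, h2, rfl⟩ := (ih x).1 hx
      obtain ⟨w1, g1, w2, g2, rfl⟩ := (mem_real_append θ x1 x2 w).1 hw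
      exact ⟨w1, ⟨x1, h1, g1⟩, w2, ⟨x2, h2, g2⟩, rfl⟩
    · rintro ⟨w1, ⟨x1, h1, g1⟩, w2, ⟨x2, h2, g2⟩, rfl⟩
      exact ⟨x1 ++ x2, (ih _).2 ⟨x1, h1, x2, h2, rfl⟩,
        (mem_real_append θ x1 x2 _).2 ⟨w1, g1, w2, g2, rfl⟩⟩

theorem mem_iter_add (θ : A → Set (List A)) (j k : ℕ) (u w : List A) :
    w ∈ iter θ (j + k) u ↔ ∃ v ∈ iter θ j u, w ∈ iter θ k v := by
  induction k generalizing w with
  | zero => simp [iter]
  | succ k ih =>
    constructor
    · rintro ⟨x, hx, hw⟩
      obtain ⟨v, hv, hx⟩ := (ih x).1 hx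
      exact ⟨v, hv, x, hx, hw⟩
    · rintro ⟨v, hv, x, hx, hw⟩
      exact ⟨x, (ih x).2 ⟨v, hv, hx⟩, hw⟩

theorem mem_iter_one (θ : A → Set (List A)) (u w : List A) :
    w ∈ iter θ 1 u ↔ w ∈ real θ u := by
  constructor
  · rintro ⟨v, rfl, hw⟩
    exact hw
  · intro h
    exact ⟨u, rfl, h⟩

theorem mem_real_nil (θ : A → Set (List A)) (w : List A) : w ∈ real θ [] ↔ w = [] := by
  simp [real]

theorem mem_iter_nil (θ : A → Set (List A)) (k : ℕ) (w : List A) :
    w ∈ iter θ k [] ↔ w = [] := by
  induction k generalizing w with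
  | zero => simp [iter]
  | succ k ih =>
    constructor
    · rintro ⟨v, hv, hw⟩
      rw [ih v] at hv
      subst hv
      exact (mem_real_nil θ w).1 hw
    · rintro rfl
      exact ⟨[], (ih _).2 rfl, (mem_real_nil θ _).2 rfl⟩

theorem mem_iter_cons (θ : A → Set (List A)) (k : ℕ) (a : A) (v w : List A) :
    w ∈ iter θ k (a :: v) ↔ ∃ w1 ∈ iter θ k [a], ∃ w2 ∈ iter θ k v, w = w1 ++ w2 :=
  mem_iter_append θ k [a] v w

theorem mem_real_singleton (θ : A → Set (List A)) (a : A) (w : List A) :
    w ∈ real θ [a] ↔ w ∈ θ a := by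
  constructor
  · rintro ⟨v, hv, v', hv', rfl⟩
    rw [mem_real_nil] at hv'
    subst hv'
    simpa using hv
  · intro h
    exact ⟨w, h, [], (mem_real_nil θ _).2 rfl, by simp⟩

section

variable {θ : A → Set (List A)}

theorem real_nonempty (hθ : IsRandomSubstitution θ) (u : List A) : (real θ u).Nonempty := by
  induction u with
  | nil => exact ⟨[], rfl⟩
  | cons a u ih =>
    obtain ⟨v, hv⟩ := hθ.nonempty a
    obtain ⟨v', hv'⟩ := ih
    exact ⟨v ++ v', v, hv, v', hv', rfl⟩

theorem iter_nonempty (hθ : IsRandomSubstitution θ) (k : ℕ) (u : List A) :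
    (iter θ k u).Nonempty := by
  induction k with
  | zero => exact ⟨u, rfl⟩
  | succ k ih =>
    obtain ⟨v, hv⟩ := ih
    obtain ⟨w, hw⟩ := real_nonempty hθ v
    exact ⟨w, v, hv, hw⟩

theorem length_le_real (hθ : IsRandomSubstitution θ) (u w : List A) (h : w ∈ real θ u) :
    u.length ≤ w.length := by
  induction u generalizing w with
  | nil => simp
  | cons a u ih =>
    obtain ⟨v, hv, v', hv', rfl⟩ := h
    have h1 := ih v' hv'
    have h2 : 0 < v.length := by
      rw [List.length_pos_iff]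
      rintro rfl
      exact hθ.nil_notMem a hv
    simp only [List.length_cons, List.length_append]
    omega

theorem length_le_iter (hθ : IsRandomSubstitution θ) (k : ℕ) (u w : List A)
    (h : w ∈ iter θ k u) : u.length ≤ w.length := by
  induction k generalizing w with
  | zero =>
    have : w = u := h
    rw [this]
  | succ k ih =>
    obtain ⟨v, hv, hw⟩ := h
    exact (ih v hv).trans (length_le_real hθ v w hw)

/-- Legal words are closed under subwords. -/
theorem legal_infix {u v : List A} (h : Legal θ u) (hv : v <:+: u) : Legal θ v := by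
  obtain ⟨k, hk, a, w, hw, huw⟩ := h
  exact ⟨k, hk, a, w, hw, hv.trans huw⟩

theorem legal_factorial (θ : A → Set (List A)) : Factorial (Legal θ) :=
  fun _ _ h hv => legal_infix h hv

/-- Realisations of legal words are legal. -/
theorem legal_iter (hθ : IsRandomSubstitution θ) {γ W : List A} (h : Legal θ γ) (m : ℕ)
    (hW : W ∈ iter θ m γ) : Legal θ W := by
  obtain ⟨k, hk, a, w, hw, s, t, hst⟩ := h
  obtain ⟨s', hs'⟩ := iter_nonempty hθ m s
  obtain ⟨t', ht'⟩ := iter_nonempty hθ m t
  refine ⟨k + m, by omega, a, s' ++ W ++ t', ?_, s', t', rfl⟩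
  rw [mem_iter_add]
  refine ⟨w, hw, ?_⟩
  rw [← hst]
  rw [mem_iter_append]
  refine ⟨s' ++ W, ?_, t', ht', rfl⟩
  rw [mem_iter_append]
  exact ⟨s', hs', W, hW, rfl⟩

end

/-! ### Letter counts -/

section counts

variable [DecidableEq A]

/-- The vector of letter counts. -/
def ab (u : List A) : A → ℕ := fun b => u.count b

theorem ab_nil : ab ([] : List A) = 0 := by
  funext b
  simp [ab]

theorem ab_append (u v : List A) : ab (u ++ v) = ab u + ab v := by
  funext b
  simp [ab]

theorem ab_singleton (a : A) : ab [a] = Pi.single a 1 := by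
  funext b
  by_cases h : b = a
  · subst h
    simp [ab]
  · simp [ab, h, Ne.symm h]

theorem ab_cons (a : A) (u : List A) : ab (a :: u) = ab [a] + ab u := ab_append [a] u

variable [Fintype A]

theorem sum_ab (u : List A) : ∑ b, ab u b = u.length := by
  induction u with
  | nil => simp [ab]
  | cons a u ih =>
    rw [ab_cons, List.length_cons, ← ih, ab_singleton]
    simp only [Pi.add_apply, Finset.sum_add_distrib]
    simp [add_comm]

variable {θ : A → Set (List A)} {M : Matrix A A ℕ}

theorem ab_real (hM : IsMatrixOf θ M) (u w : List A) (h : w ∈ real θ u) :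
    ab w = M.mulVec (ab u) := by
  induction u generalizing w with
  | nil =>
    have : w = [] := (mem_real_nil θ w).1 h
    subst this
    rw [ab_nil, Matrix.mulVec_zero]
  | cons a u ih =>
    obtain ⟨v, hv, v', hv', rfl⟩ := h
    rw [ab_append, ab_cons, Matrix.mulVec_add, ih v' hv', ab_singleton,
      Matrix.mulVec_single_one]
    congr 1
    funext b
    rw [Matrix.col_apply, hM a v hv b]
    rfl

theorem ab_iter (hM : IsMatrixOf θ M) (k : ℕ) (u w : List A) (h : w ∈ iter θ k u) :
    ab w = (M ^ k).mulVec (ab u) := by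
  induction k generalizing w with
  | zero =>
    have : w = u := h
    rw [this, pow_zero, Matrix.one_mulVec]
  | succ k ih =>
    obtain ⟨v, hv, hw⟩ := h
    rw [ab_real hM v w hw, ih v hv, pow_succ', Matrix.mulVec_mulVec]

/-- The common length of the words of `iter θ k [a]`. -/
def len (M : Matrix A A ℕ) (k : ℕ) (a : A) : ℕ := ∑ b, (M ^ k) b a

theorem length_iter_singleton (hM : IsMatrixOf θ M) (k : ℕ) (a : A) (w : List A)
    (h : w ∈ iter θ k [a]) : w.length = len M k a := by
  rw [← sum_ab, ab_iter hM k _ w h, ab_singleton, Matrix.mulVec_single_one]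
  rfl

theorem length_iter (hM : IsMatrixOf θ M) (k : ℕ) (u w : List A)
    (h : w ∈ iter θ k u) : w.length = (u.map (len M k)).sum := by
  induction u generalizing w with
  | nil =>
    have : w = [] := (mem_iter_nil θ k w).1 h
    simp [this]
  | cons a u ih =>
    obtain ⟨w1, h1, w2, h2, rfl⟩ := (mem_iter_cons θ k a u w).1 h
    rw [List.length_append, ih w2 h2, length_iter_singleton hM k a w1 h1]
    simp

/-- The maximal length of words of `iter θ k [a]`. -/
def lmax (M : Matrix A A ℕ) (k : ℕ) : ℕ := Finset.univ.sup (len M k)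

theorem len_le_lmax (M : Matrix A A ℕ) (k : ℕ) (a : A) : len M k a ≤ lmax M k :=
  Finset.le_sup (f := len M k) (Finset.mem_univ a)

theorem exists_len_eq_lmax [Nonempty A] (M : Matrix A A ℕ) (k : ℕ) : ∃ a, len M k a = lmax M k := by
  obtain ⟨a, _, ha⟩ := Finset.exists_mem_eq_sup (Finset.univ : Finset A) Finset.univ_nonempty
    (len M k)
  exact ⟨a, ha.symm⟩

theorem length_iter_le (hM : IsMatrixOf θ M) (k : ℕ) (u w : List A)
    (h : w ∈ iter θ k u) : w.length ≤ u.length * lmax M k := by
  rw [length_iter hM k u w h]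
  have := List.sum_le_card_nsmul (u.map (len M k)) (lmax M k) (by
    intro x hx
    obtain ⟨a, _, rfl⟩ := List.mem_map.1 hx
    exact len_le_lmax M k a)
  simpa using this

end counts

end Pool.Agent.H.MP_144feb_an
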