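import Pool.Agent.H.MP_144feb_an.Lang

/-!
# Choice of words `P`, `S` without self-overlaps
-/

namespace Pool.Agent.H.MP_144feb_an

variable {A : Type*}

/-- the concatenation of the words `l ++ V ++ r` for the pairs `(l, r)` of a list -/
def baseWord (V : List A) (D : List (List A × List A)) : List A :=
  (D.map fun p => p.1 ++ V ++ p.2).flatten

theorem choice_family (L : List A → Prop) (V V' : List A) (hVV : V ≠ V')
    (hlen : V.length = V'.length) (hint : Inter L V V') (D : List (List A × List A)) :
    ∃ T : Finset (List A), T.card = 2 ^ D.length ∧ ∀ P ∈ T,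
      P.length = (baseWord V D).length ∧
      ∀ l r : List A, L (l ++ P ++ r) ↔ L (l ++ baseWord V D ++ r) := by
  classical
  induction D with
  | nil =>
    refine ⟨{[]}, by simp, fun P hP => ?_⟩
    rw [Finset.mem_singleton] at hP
    subst hP
    exact ⟨by simp [baseWord], fun l r => by simp [baseWord]⟩
  | cons p D ih =>
    obtain ⟨T, hT, hTP⟩ := ih
    have hb : baseWord V (p :: D) = p.1 ++ V ++ p.2 ++ baseWord V D := by
      simp [baseWord]
    refine ⟨(T ×ˢ ({V, V'} : Finset (List A))).image fun q => p.1 ++ q.2 ++ p.2 ++ q.1, ?_, ?_⟩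
    · rw [Finset.card_image_of_injOn, Finset.card_product, hT, Finset.card_pair hVV,
        List.length_cons, pow_succ]
      rintro ⟨P1, W1⟩ h1 ⟨P2, W2⟩ h2 heq
      rw [Finset.mem_coe, Finset.mem_product, Finset.mem_insert, Finset.mem_singleton] at h1 h2
      dsimp only at h1 h2 heq
      have hW : W1.length = W2.length := by
        rcases h1.2 with h | h <;> rcases h2.2 with h' | h' <;> rw [h, h'] <;> simp [hlen]
      have e1 := List.append_inj heq (by simp [hW])
      have e2 := List.append_inj e1.1 (by simp [hW])
      have e3 := List.append_inj e2.1 rfl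
      rw [e1.2, e3.2]
    · intro P hP
      rw [Finset.mem_image] at hP
      obtain ⟨⟨Q, W⟩, hQW, rfl⟩ := hP
      rw [Finset.mem_product, Finset.mem_insert, Finset.mem_singleton] at hQW
      dsimp only at hQW ⊢
      obtain ⟨hQ1, hQ2⟩ := hTP Q hQW.1
      constructor
      · rw [hb]
        rcases hQW.2 with h | h
        · subst h; simp [hQ1]
        · subst h; simp [hQ1, hlen]
      · intro l r
        have h1 := hQ2 (l ++ p.1 ++ W ++ p.2) r
        have h2 : L (l ++ p.1 ++ W ++ (p.2 ++ baseWord V D ++ r)) ↔
            L (l ++ p.1 ++ V ++ (p.2 ++ baseWord V D ++ r)) := by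
          rcases hQW.2 with h | h
          · rw [h]
          · rw [h]
            exact (hint (l ++ p.1) (p.2 ++ baseWord V D ++ r)).symm
        rw [hb]
        simp only [List.append_assoc] at h1 h2 ⊢
        exact h1.trans h2

theorem choice_unique (P P' R : List A) (j : ℕ) (hj : 0 < j) (hlen : P.length = P'.length)
    (h : ((P ++ R).drop j).take P.length = P) (h' : ((P' ++ R).drop j).take P'.length = P') :
    P = P' := by
  have e : ∀ i, i < P.length → P[i]? = (P ++ R)[j + i]? := by
    intro i hi
    have h1 := congrArg (fun l : List A => l[i]?) h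
    rw [List.getElem?_take, if_pos hi, List.getElem?_drop] at h1
    exact h1.symm
  have e' : ∀ i, i < P'.length → P'[i]? = (P' ++ R)[j + i]? := by
    intro i hi
    have h1 := congrArg (fun l : List A => l[i]?) h'
    rw [List.getElem?_take, if_pos hi, List.getElem?_drop] at h1
    exact h1.symm
  have key : ∀ m i, P.length - i ≤ m → P[i]? = P'[i]? := by
    intro m
    induction m with
    | zero =>
      intro i hi
      rw [List.getElem?_eq_none (by omega), List.getElem?_eq_none (by omega)]
    | succ m ih =>
      intro i hi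
      by_cases hi2 : i < P.length
      · rw [e i hi2, e' i (by omega)]
        by_cases hi3 : j + i < P.length
        · rw [List.getElem?_append_left hi3, List.getElem?_append_left (by omega)]
          exact ih (j + i) (by omega)
        · rw [List.getElem?_append_right (by omega), List.getElem?_append_right (by omega), hlen]
      · rw [List.getElem?_eq_none (by omega), List.getElem?_eq_none (by omega)]
  exact List.ext_getElem? fun i => key P.length i (Nat.sub_le _ _)

theorem choice_pow (a b : ℕ) : ∃ k : ℕ, a + b * k < 2 ^ k := by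
  refine ⟨2 * (a + 2 * b), ?_⟩
  have h1 : a + 2 * b < 2 ^ (a + 2 * b) := Nat.lt_two_pow_self
  have h2 : 2 ^ (2 * (a + 2 * b)) = 2 ^ (a + 2 * b) * 2 ^ (a + 2 * b) := by
    rw [two_mul, pow_add]
  rw [h2]
  have h3 : (a + 2 * b + 1) * (a + 2 * b + 1) ≤ 2 ^ (a + 2 * b) * 2 ^ (a + 2 * b) :=
    Nat.mul_le_mul h1 h1
  nlinarith [Nat.zero_le a, Nat.zero_le b, Nat.zero_le (a * b)]

theorem forall₂_flatten_length (C : ℕ) (Bs G : List (List A))
    (h : List.Forall₂ (fun b g => g <:+: b ∧ b.length ≤ C) Bs G) :
    Bs.flatten.length ≤ C * G.length := by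
  induction h with
  | nil => simp
  | cons h1 _ ih =>
    rw [List.flatten_cons, List.length_append, List.length_cons, Nat.mul_succ]
    have := h1.2
    omega

theorem forall₂_flatten_infix (C : ℕ) (Bs G : List (List A))
    (h : List.Forall₂ (fun b g => g <:+: b ∧ b.length ≤ C) Bs G) (g : List A) (hg : g ∈ G) :
    g <:+: Bs.flatten := by
  induction h with
  | nil => simp at hg
  | cons h1 _ ih =>
    rw [List.flatten_cons]
    rcases List.mem_cons.mp hg with h2 | h2
    · rw [h2]
      exact h1.1.trans (List.infix_append' [] _ _)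
    · exact (ih h2).trans (List.suffix_append _ _).isInfix

theorem forall₂_replicate_length (C : ℕ) (V : List A) (K : ℕ) (Bs : List (List A))
    (h : List.Forall₂ (fun b g => g <:+: b ∧ b.length ≤ C) Bs (List.replicate K V)) :
    K * V.length ≤ Bs.flatten.length := by
  induction K generalizing Bs with
  | zero => simp
  | succ K ih =>
    rw [List.replicate_succ] at h
    cases h with
    | cons h1 h2 =>
      rw [List.flatten_cons, List.length_append, Nat.succ_mul]
      have h3 := ih _ h2
      have h4 := h1.1.length_le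
      omega

theorem forall₂_replicate_pairs (C : ℕ) (V : List A) (k : ℕ) (Bs : List (List A))
    (h : List.Forall₂ (fun b g => g <:+: b ∧ b.length ≤ C) Bs (List.replicate k V)) :
    ∃ D : List (List A × List A), D.length = k ∧ Bs.flatten = baseWord V D := by
  induction k generalizing Bs with
  | zero =>
    rw [List.replicate_zero, List.forall₂_nil_right_iff] at h
    exact ⟨[], rfl, by simp [h, baseWord]⟩
  | succ k ih =>
    rw [List.replicate_succ] at h
    cases h with
    | cons h1 h2 =>
      obtain ⟨D, hD, hB⟩ := ih _ h2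
      obtain ⟨s, t, hst⟩ := h1.1
      refine ⟨(s, t) :: D, by rw [List.length_cons, hD], ?_⟩
      rw [List.flatten_cons, hB, ← hst]
      simp [baseWord]

theorem exists_choice [Finite A] (L : List A → Prop) (hfac : Factorial L) (hcat : Concat L)
    (V V' : List A) (hVV : V ≠ V') (hlen : V.length = V'.length) (hV : L V)
    (hint : Inter L V V') (r : ℕ) :
    ∃ P S : List A, L (P ++ V ++ S) ∧ P.length + V.length + 2 * r ≤ S.length ∧
      NoOv P (V ++ S) ∧ NoOv P (V' ++ S) ∧
      ∀ u, L u → u.length = 2 * r + 1 → u <:+: P := by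
  classical
  have hW : ({u | L u ∧ u.length = 2 * r + 1} : Set (List A)).Finite :=
    (List.finite_length_eq A (2 * r + 1)).subset fun u hu => hu.2
  obtain ⟨C, hC⟩ := hcat ({u | L u ∧ u.length = 2 * r + 1} ∪ {V})
    (hW.union (Set.finite_singleton V)) (by
      rintro g (hg | hg)
      · exact hg.1
      · rw [Set.mem_singleton_iff.mp hg]; exact hV)
  set ws := hW.toFinset.toList with hws
  have hwsmem : ∀ u, u ∈ ws ↔ L u ∧ u.length = 2 * r + 1 := fun u => by
    rw [hws, Finset.mem_toList, Set.Finite.mem_toFinset]; rfl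
  set N0 := ws.length with hN0
  have hV1 : 1 ≤ V.length := by
    by_contra hcon
    have h1 : V.length = 0 := by omega
    have h2 : V'.length = 0 := by omega
    exact hVV (by rw [List.length_eq_zero_iff.mp h1, List.length_eq_zero_iff.mp h2])
  obtain ⟨k, hk⟩ := choice_pow (2 * (V.length + C * (C * (N0 + 1) + V.length + 2 * r + 1) + 1))
    (2 * (C * C))
  set K := C * (N0 + k + 1) + V.length + 2 * r with hK
  obtain ⟨Bs, hBs, hLB⟩ := hC (ws ++ (List.replicate k V ++ ([V] ++ List.replicate K V))) (by
    intro g hg
    rw [List.mem_append, List.mem_append, List.mem_append] at hg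
    rcases hg with hg | hg | hg | hg
    · exact Or.inl ((hwsmem g).mp hg)
    · exact Or.inr (List.eq_of_mem_replicate hg)
    · exact Or.inr (List.mem_singleton.mp hg)
    · exact Or.inr (List.eq_of_mem_replicate hg))
  have split : ∀ (Cs G1 G2 : List (List A)),
      List.Forall₂ (fun b g => g <:+: b ∧ b.length ≤ C) Cs (G1 ++ G2) →
      ∃ C1 C2, Cs = C1 ++ C2 ∧ List.Forall₂ (fun b g => g <:+: b ∧ b.length ≤ C) C1 G1 ∧
        List.Forall₂ (fun b g => g <:+: b ∧ b.length ≤ C) C2 G2 := by
    intro Cs G1 G2 h
    exact ⟨Cs.take G1.length, Cs.drop G1.length, (List.take_append_drop _ _).symm,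
      List.forall₂_take_append _ _ _ h, List.forall₂_drop_append _ _ _ h⟩
  obtain ⟨B1, Bs', e1, hB1, hBs'⟩ := split _ _ _ hBs
  obtain ⟨B2, Bs'', e2, hB2, hBs''⟩ := split _ _ _ hBs'
  obtain ⟨B, B3, e3, hB, hB3⟩ := split _ _ _ hBs''
  obtain ⟨b, rfl⟩ : ∃ b, B = [b] := by
    cases hB with
    | cons h1 h2 =>
      rw [List.forall₂_nil_right_iff] at h2
      exact ⟨_, by rw [h2]⟩
  have hb : V <:+: b ∧ b.length ≤ C := by
    cases hB with
    | cons h1 h2 => exact h1
  obtain ⟨l0, r0, hlr⟩ := hb.1
  obtain ⟨D, hD, hDB⟩ := forall₂_replicate_pairs C V k B2 hB2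
  obtain ⟨T, hT, hTP⟩ := choice_family L V V' hVV hlen hint D
  set S := r0 ++ B3.flatten with hS
  have hLall : L (B1.flatten ++ baseWord V D ++ (l0 ++ V ++ S)) := by
    rw [e1, e2, e3, List.flatten_append, List.flatten_append, List.flatten_append, hDB] at hLB
    rw [List.flatten_cons, List.flatten_nil, ← hlr] at hLB
    rw [hS]
    simp only [List.append_assoc, List.append_nil] at hLB ⊢
    exact hLB
  have hB1len := forall₂_flatten_length C B1 ws hB1
  have hB2len := forall₂_flatten_length C B2 _ hB2
  have hB3len := forall₂_flatten_length C B3 _ hB3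
  have hB3low := forall₂_replicate_length C V K B3 hB3
  rw [List.length_replicate] at hB2len hB3len
  rw [← hN0] at hB1len
  have hblen : l0.length + V.length + r0.length ≤ C := by
    have := hb.2
    rw [← hlr, List.length_append, List.length_append] at this
    exact this
  have hSup : S.length ≤ C * (K + 1) := by
    rw [hS, List.length_append, Nat.mul_succ]
    omega
  have hSlow : K ≤ S.length := by
    rw [hS, List.length_append]
    have : K * 1 ≤ K * V.length := Nat.mul_le_mul_left _ hV1
    omega
  have hPlen : ∀ Q ∈ T, (B1.flatten ++ Q ++ l0).length =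
      B1.flatten.length + B2.flatten.length + l0.length := by
    intro Q hQ
    rw [List.length_append, List.length_append, (hTP Q hQ).1, hDB]
  have hPup : B1.flatten.length + B2.flatten.length + l0.length ≤ C * (N0 + k + 1) := by
    have : C * (N0 + k + 1) = C * N0 + C * k + C := by ring
    omega
  -- a good word
  obtain ⟨Q, hQT, hgood⟩ : ∃ Q ∈ T, NoOv (B1.flatten ++ Q ++ l0) (V ++ S) ∧
      NoOv (B1.flatten ++ Q ++ l0) (V' ++ S) := by
    by_contra hcon
    push Not at hcon
    have hbad : ∀ Q ∈ T, ∃ q : Bool × ℕ, q.2 < V.length + S.length + 1 ∧ 0 < q.2 ∧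
        (((B1.flatten ++ Q ++ l0) ++ ((if q.1 then V else V') ++ S)).drop q.2).take
          (B1.flatten ++ Q ++ l0).length = B1.flatten ++ Q ++ l0 := by
      intro Q hQ
      by_cases h1 : NoOv (B1.flatten ++ Q ++ l0) (V ++ S)
      · have h2 := hcon Q hQ h1
        unfold NoOv at h2
        push Not at h2
        obtain ⟨j, hj0, hj1, hj2⟩ := h2
        refine ⟨(false, j), ?_, hj0, ?_⟩
        · rw [List.length_append] at hj1
          dsimp only
          omega
        · simpa using hj2
      · unfold NoOv at h1
        push Not at h1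
        obtain ⟨j, hj0, hj1, hj2⟩ := h1
        refine ⟨(true, j), ?_, hj0, ?_⟩
        · rw [List.length_append] at hj1
          dsimp only
          omega
        · simpa using hj2
    choose! f hf1 hf2 hf3 using hbad
    have hmaps : ∀ Q ∈ T, f Q ∈ (Finset.univ : Finset Bool) ×ˢ
        Finset.range (V.length + S.length + 1) := by
      intro Q hQ
      rw [Finset.mem_product]
      exact ⟨Finset.mem_univ _, Finset.mem_range.mpr (hf1 Q hQ)⟩
    have hinj : Set.InjOn f T := by
      intro Q hQ Q' hQ' heq
      have h1 := hf3 Q hQ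
      have h2 := hf3 Q' hQ'
      rw [← heq] at h2
      have h3 := choice_unique _ _ _ (f Q).2 (hf2 Q hQ)
        ((hPlen Q hQ).trans (hPlen Q' hQ').symm) h1 h2
      have h4 := List.append_inj h3 (by
        rw [List.length_append, List.length_append, (hTP Q hQ).1, (hTP Q' hQ').1])
      exact (List.append_inj h4.1 rfl).2
    have hcard := Finset.card_le_card_of_injOn f hmaps hinj
    rw [Finset.card_product, Finset.card_univ, Fintype.card_bool, Finset.card_range, hT, hD]
      at hcard
    have h5 : V.length + S.length + 1 ≤ V.length + C * (K + 1) + 1 := by omega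
    have h6 : 2 * (V.length + C * (K + 1) + 1) =
        2 * (V.length + C * (C * (N0 + 1) + V.length + 2 * r + 1) + 1) + 2 * (C * C) * k := by
      rw [hK]; ring
    omega
  refine ⟨B1.flatten ++ Q ++ l0, S, ?_, ?_, hgood.1, hgood.2, ?_⟩
  · have h1 := ((hTP Q hQT).2 B1.flatten (l0 ++ V ++ S)).mpr hLall
    simp only [List.append_assoc] at h1 ⊢
    exact h1
  · rw [hPlen Q hQT]
    omega
  · intro u hu hul
    have h1 := forall₂_flatten_infix C B1 ws hB1 u ((hwsmem u).mpr ⟨hu, hul⟩)
    refine h1.trans ⟨[], Q ++ l0, by simp⟩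

end Pool.Agent.H.MP_144feb_an
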