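import Pool.Agent.H.MP_144feb_an.Growth

/-!
# Cuts of legal words and words with a forced cut
-/

namespace Pool.Agent.H.MP_144feb_an

variable {A : Type*} [Fintype A] [DecidableEq A]
variable {θ : A → Set (List A)} {M : Matrix A A ℕ} {k0 : ℕ}

theorem split_le (hM : IsMatrixOf θ M) (m : ℕ) (γ W : List A) (n : ℕ) (hW : W ∈ iter θ m γ)
    (hn : n ≤ W.length) :
    ∃ γ1 γ2 W1 W2, γ = γ1 ++ γ2 ∧ W = W1 ++ W2 ∧ W1 ∈ iter θ m γ1 ∧ W2 ∈ iter θ m γ2 ∧
      W1.length ≤ n ∧ n ≤ W1.length + lmax M m := by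
  induction γ generalizing W n with
  | nil =>
    have : W = [] := (mem_iter_nil θ m W).1 hW
    subst this
    have : n = 0 := by simpa using hn
    subst this
    exact ⟨[], [], [], [], rfl, rfl, hW, hW, le_rfl, Nat.zero_le _⟩
  | cons a γ ih =>
    obtain ⟨x, hx, y, hy, rfl⟩ := (mem_iter_cons θ m a γ W).1 hW
    have hxl : x.length ≤ lmax M m := by
      rw [length_iter_singleton hM m a x hx]
      exact len_le_lmax M m a
    by_cases hnx : n ≤ x.length
    · exact ⟨[], a :: γ, [], x ++ y, rfl, rfl, (mem_iter_nil θ m _).2 rfl, hW, Nat.zero_le _,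
        by simp; omega⟩
    · rw [List.length_append] at hn
      obtain ⟨γ1, γ2, W1, W2, h1, h2, h3, h4, h5, h6⟩ := ih y (n - x.length) hy (by omega)
      refine ⟨a :: γ1, γ2, x ++ W1, W2, by rw [h1]; rfl, by rw [h2, List.append_assoc],
        (mem_iter_cons θ m a γ1 _).2 ⟨x, hx, W1, h3, rfl⟩, h4, ?_, ?_⟩
      · rw [List.length_append]; omega
      · rw [List.length_append]; omega

theorem split_ge (hM : IsMatrixOf θ M) (m : ℕ) (γ W : List A) (n : ℕ) (hW : W ∈ iter θ m γ)
    (hn : n ≤ W.length) :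
    ∃ γ1 γ2 W1 W2, γ = γ1 ++ γ2 ∧ W = W1 ++ W2 ∧ W1 ∈ iter θ m γ1 ∧ W2 ∈ iter θ m γ2 ∧
      n ≤ W1.length ∧ W1.length ≤ n + lmax M m := by
  induction γ generalizing W n with
  | nil =>
    have : W = [] := (mem_iter_nil θ m W).1 hW
    subst this
    have : n = 0 := by simpa using hn
    subst this
    exact ⟨[], [], [], [], rfl, rfl, hW, hW, le_rfl, Nat.zero_le _⟩
  | cons a γ ih =>
    obtain ⟨x, hx, y, hy, rfl⟩ := (mem_iter_cons θ m a γ W).1 hW
    have hxl : x.length ≤ lmax M m := by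
      rw [length_iter_singleton hM m a x hx]
      exact len_le_lmax M m a
    by_cases hnx : n ≤ x.length
    · exact ⟨[a], γ, x, y, rfl, rfl, hx, hy, hnx, by omega⟩
    · rw [List.length_append] at hn
      obtain ⟨γ1, γ2, W1, W2, h1, h2, h3, h4, h5, h6⟩ := ih y (n - x.length) hy (by omega)
      refine ⟨a :: γ1, γ2, x ++ W1, W2, by rw [h1]; rfl, by rw [h2, List.append_assoc],
        (mem_iter_cons θ m a γ1 _).2 ⟨x, hx, W1, h3, rfl⟩, h4, ?_, ?_⟩
      · rw [List.length_append]; omega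
      · rw [List.length_append]; omega

/-- An `m`-cut of `u` at position `c`. -/
def Cut (θ : A → Set (List A)) (m : ℕ) (u : List A) (c : ℕ) : Prop :=
  ∃ γ1 γ2 W1 W2, Legal θ (γ1 ++ γ2) ∧ W1 ∈ iter θ m γ1 ∧ W2 ∈ iter θ m γ2 ∧
    u.take c <:+ W1 ∧ u.drop c <+: W2

omit [Fintype A] [DecidableEq A] in
theorem Cut.restrict {m : ℕ} {l u r : List A} {c : ℕ} (hc : c ≤ u.length)
    (h : Cut θ m (l ++ u ++ r) (l.length + c)) : Cut θ m u c := by
  obtain ⟨γ1, γ2, W1, W2, h1, h2, h3, h4, h5⟩ := h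
  refine ⟨γ1, γ2, W1, W2, h1, h2, h3, ?_, ?_⟩
  · refine List.IsSuffix.trans ?_ h4
    rw [List.append_assoc, List.take_length_add_append, List.take_append_of_le_length hc]
    exact List.suffix_append l _
  · refine List.IsPrefix.trans ?_ h5
    rw [List.append_assoc, List.drop_length_add_append, List.drop_append_of_le_length hc]
    exact List.prefix_append _ r

theorem Good.exists_cut (h : Good θ M k0) (m : ℕ) (u : List A) (hu : Legal θ u) (i : ℕ)
    (hi : i + lmax M m ≤ u.length) : ∃ c, i ≤ c ∧ c ≤ i + lmax M m ∧ Cut θ m u c := by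
  obtain ⟨γ, hγ, W, hW, s, t, hst⟩ := h.exists_desub u hu m
  have hlen : s.length + i ≤ W.length := by
    rw [← hst]
    simp only [List.length_append]
    omega
  obtain ⟨γ1, γ2, W1, W2, h1, h2, h3, h4, h5, h6⟩ := split_ge h.mat m γ W _ hW hlen
  subst h1
  obtain ⟨c, hc⟩ : ∃ c, W1.length = s.length + c := ⟨W1.length - s.length, by omega⟩
  have hcu : c ≤ u.length := by omega
  have e : s ++ u ++ t = W1 ++ W2 := hst.trans h2
  refine ⟨c, by omega, by omega, γ1, γ2, W1, W2, hγ, h3, h4, ?_, ?_⟩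
  · have : W1 = s ++ u.take c := by
      have e1 := congrArg (List.take (s.length + c)) e
      rw [List.append_assoc, List.take_length_add_append, List.take_append_of_le_length hcu, ← hc,
        List.take_left'] at e1
      · exact e1.symm
      · rfl
    rw [this]
    exact List.suffix_append s _
  · have : W2 = u.drop c ++ t := by
      have e1 := congrArg (List.drop (s.length + c)) e
      rw [List.append_assoc, List.drop_length_add_append, List.drop_append_of_le_length hcu, ← hc,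
        List.drop_left'] at e1
      · exact e1.symm
      · rfl
    rw [this]
    exact List.prefix_append _ t

/-- There is a legal word with a forced cut. -/
theorem Good.forced_cut [Nontrivial A] (h : Good θ M k0) (m : ℕ) :
    ∃ Q c, Legal θ Q ∧ c ≤ Q.length ∧ ∀ l r, Legal θ (l ++ Q ++ r) →
      ∃ γ1 γ2 W1 W2, Legal θ (γ1 ++ γ2) ∧ W1 ∈ iter θ m γ1 ∧ W2 ∈ iter θ m γ2 ∧
        (l ++ Q.take c) <:+ W1 ∧ (Q.drop c ++ r) <+: W2 := by
  classical
  let f : List A → ℕ → Finset ℕ := fun Q i =>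
    (Finset.Icc i (i + lmax M m)).filter (fun c => Cut θ m Q c)
  have hex : ∃ N Q i, Legal θ Q ∧ i + lmax M m ≤ Q.length ∧ (f Q i).card = N := by
    obtain ⟨g, hg, hgl⟩ := h.exists_legal_length (lmax M m)
    exact ⟨_, g, 0, hg, by omega, rfl⟩
  obtain ⟨Q, i, hQ, hi, hN⟩ := Nat.find_spec hex
  have hmin : ∀ Q' i', Legal θ Q' → i' + lmax M m ≤ Q'.length →
      (f Q i).card ≤ (f Q' i').card := by
    intro Q' i' h1 h2
    rw [hN]
    exact Nat.find_min' hex ⟨Q', i', h1, h2, rfl⟩
  obtain ⟨c, hc1, hc2, hc⟩ := h.exists_cut m Q hQ i hi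
  refine ⟨Q, c, hQ, by omega, fun l r hl => ?_⟩
  have hsub : f (l ++ Q ++ r) (l.length + i) ⊆ (f Q i).image (fun c => l.length + c) := by
    intro x hx
    obtain ⟨hx1, hx2⟩ := Finset.mem_filter.1 hx
    rw [Finset.mem_Icc] at hx1
    obtain ⟨c', rfl⟩ : ∃ c', x = l.length + c' := ⟨x - l.length, by omega⟩
    refine Finset.mem_image.2 ⟨c', Finset.mem_filter.2 ⟨?_, hx2.restrict (by omega)⟩, rfl⟩
    rw [Finset.mem_Icc]
    omega
  have heq : f (l ++ Q ++ r) (l.length + i) = (f Q i).image (fun c => l.length + c) := by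
    apply Finset.eq_of_subset_of_card_le hsub
    refine Finset.card_image_le.trans (hmin _ _ hl ?_)
    simp only [List.length_append]
    omega
  have hmem : l.length + c ∈ f (l ++ Q ++ r) (l.length + i) := by
    rw [heq]
    refine Finset.mem_image.2 ⟨c, Finset.mem_filter.2 ⟨?_, hc⟩, rfl⟩
    rw [Finset.mem_Icc]
    omega
  obtain ⟨γ1, γ2, W1, W2, h1, h2, h3, h4, h5⟩ := (Finset.mem_filter.1 hmem).2
  have hcQ : c ≤ Q.length := by omega
  refine ⟨γ1, γ2, W1, W2, h1, h2, h3, ?_, ?_⟩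
  · rw [List.append_assoc, List.take_length_add_append,
      List.take_append_of_le_length hcQ] at h4
    exact h4
  · rw [List.append_assoc, List.drop_length_add_append,
      List.drop_append_of_le_length hcQ] at h5
    exact h5

end Pool.Agent.H.MP_144feb_an
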