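import Mathlib

/-!
# Definitions for MP_144feb_an: random substitutions, their subshifts, automorphisms
-/

namespace Pool.Agent.H.MP_144feb_an

/-! ### Subshifts and their automorphism groups -/

section Subshift

variable {A : Type*}

/-- The window of length `n` of the bi-infinite sequence `x` starting at position `i`. -/
def win (x : ℤ → A) (i : ℤ) (n : ℕ) : List A := (List.range n).map fun j : ℕ => x (i + (j : ℤ))

/-- The set of bi-infinite sequences all of whose finite subwords satisfy `L`. -/
def X (L : List A → Prop) : Set (ℤ → A) := {x | ∀ (i : ℤ) (n : ℕ), L (win x i n)}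

theorem win_shift (x : ℤ → A) (c i : ℤ) (n : ℕ) :
    win (fun j => x (j + c)) i n = win x (i + c) n := by
  simp only [win]
  apply List.map_congr_left
  intro a _
  congr 1
  ring

theorem shift_mem {L : List A → Prop} {x : ℤ → A} (hx : x ∈ X L) (c : ℤ) :
    (fun i => x (i + c)) ∈ X L := by
  intro i n
  rw [win_shift]
  exact hx _ _

/-- The shift `(σ x) i = x (i + 1)` on `X L`. -/
def shiftMap (L : List A → Prop) (x : X L) : X L := ⟨fun i => x.1 (i + 1), shift_mem x.2 1⟩

/-- The inverse shift `(σ⁻¹ x) i = x (i - 1)` on `X L`. -/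
def shiftInv (L : List A → Prop) (x : X L) : X L := ⟨fun i => x.1 (i + (-1)), shift_mem x.2 (-1)⟩

theorem shiftInv_shiftMap (L : List A → Prop) (x : X L) : shiftInv L (shiftMap L x) = x := by
  apply Subtype.ext
  funext i
  show x.1 (i + -1 + 1) = x.1 i
  rw [show i + -1 + 1 = i by ring]

theorem shiftMap_shiftInv (L : List A → Prop) (x : X L) : shiftMap L (shiftInv L x) = x := by
  apply Subtype.ext
  funext i
  show x.1 (i + 1 + -1) = x.1 i
  rw [show i + 1 + -1 = i by ring]

variable [TopologicalSpace A]

theorem continuous_shiftMap (L : List A → Prop) : Continuous (shiftMap L) := by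
  apply Continuous.subtype_mk
  exact continuous_pi fun i => (continuous_apply (i + 1)).comp continuous_subtype_val

theorem continuous_shiftInv (L : List A → Prop) : Continuous (shiftInv L) := by
  apply Continuous.subtype_mk
  exact continuous_pi fun i => (continuous_apply (i + (-1))).comp continuous_subtype_val

/-- The shift `(σ x) i = x (i + 1)` as a homeomorphism of `X L` (with the topology induced by the
product topology of `ℤ → A`). -/
def shiftHomeo (L : List A → Prop) : X L ≃ₜ X L where
  toFun := shiftMap L
  invFun := shiftInv L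
  left_inv := shiftInv_shiftMap L
  right_inv := shiftMap_shiftInv L
  continuous_toFun := continuous_shiftMap L
  continuous_invFun := continuous_shiftInv L

/-- `h` commutes with the shift. -/
def CommutesWithShift (L : List A → Prop) (h : X L ≃ₜ X L) : Prop :=
  ∀ x, h (shiftHomeo L x) = shiftHomeo L (h x)

theorem commutesWithShift_mul (L : List A → Prop) {f g : X L ≃ₜ X L}
    (hf : CommutesWithShift L f) (hg : CommutesWithShift L g) : CommutesWithShift L (f * g) := by
  intro x
  rw [Homeomorph.mul_apply, Homeomorph.mul_apply, hg, hf]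

theorem commutesWithShift_inv (L : List A → Prop) {f : X L ≃ₜ X L}
    (hf : CommutesWithShift L f) : CommutesWithShift L f⁻¹ := by
  intro x
  rw [Homeomorph.inv_apply, Homeomorph.inv_apply]
  apply f.injective
  rw [hf, Homeomorph.apply_symm_apply, Homeomorph.apply_symm_apply]

/-- The automorphism group of the subshift `X L`: the homeomorphisms of `X L` which commute with
the shift. -/
def Aut (L : List A → Prop) : Subgroup (X L ≃ₜ X L) where
  carrier := {h | CommutesWithShift L h}
  mul_mem' := commutesWithShift_mul L
  one_mem' := fun _ => rfl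
  inv_mem' := commutesWithShift_inv L

/-- The shift as an element of the automorphism group. -/
def shiftAut (L : List A → Prop) : Aut L := ⟨shiftHomeo L, fun _ => rfl⟩

end Subshift

/-! ### Random substitutions -/

section RandomSubstitution

variable {A : Type*}

/-- A random substitution: each letter is mapped to a nonempty finite set of nonempty words. -/
structure IsRandomSubstitution (θ : A → Set (List A)) : Prop where
  finite : ∀ a, (θ a).Finite
  nonempty : ∀ a, (θ a).Nonempty
  nil_notMem : ∀ a, [] ∉ θ a

/-- `real θ u` is the set `θ(u)` of all concatenations `v₁ ⋯ vₙ` with `vᵢ ∈ θ(uᵢ)`. -/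
def real (θ : A → Set (List A)) : List A → Set (List A)
  | [] => {[]}
  | a :: u => {w | ∃ v ∈ θ a, ∃ v' ∈ real θ u, w = v ++ v'}

/-- `iter θ k u` is the set `θ^k(u)`, where `θ^k` is the `k`-fold composite. -/
def iter (θ : A → Set (List A)) : ℕ → List A → Set (List A)
  | 0, u => {u}
  | k + 1, u => {w | ∃ v ∈ iter θ k u, w ∈ real θ v}

/-- A word is legal if it is a subword of some word in `θ^k(a)` for some `k ≥ 1` and some letter
`a`. -/
def Legal (θ : A → Set (List A)) (v : List A) : Prop :=
  ∃ k : ℕ, 1 ≤ k ∧ ∃ a : A, ∃ w ∈ iter θ k [a], v <:+: w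

variable [DecidableEq A]

/-- `θ` is compatible if for each letter `a` all words in `θ(a)` contain each letter the same
number of times. -/
def Compatible (θ : A → Set (List A)) : Prop :=
  ∀ a, ∀ v ∈ θ a, ∀ v' ∈ θ a, ∀ b, v.count b = v'.count b

/-- `M` is the substitution matrix of `θ`: `M b a = |v|_b` for every `v ∈ θ(a)`. -/
def IsMatrixOf (θ : A → Set (List A)) (M : Matrix A A ℕ) : Prop :=
  ∀ a, ∀ v ∈ θ a, ∀ b, M b a = v.count b

/-- `θ` is primitive if it is compatible and some power of its substitution matrix has all
entries positive. -/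
def Primitive [Fintype A] (θ : A → Set (List A)) : Prop :=
  Compatible θ ∧ ∃ M : Matrix A A ℕ, IsMatrixOf θ M ∧ ∃ k : ℕ, 1 ≤ k ∧ ∀ i j, 0 < (M ^ k) i j

/-- `θ` is non-degenerate if `θ(a)` has at least two elements for some letter `a`. -/
def NonDegenerate (θ : A → Set (List A)) : Prop :=
  ∃ a, ∃ v ∈ θ a, ∃ v' ∈ θ a, v ≠ v'

end RandomSubstitution

end Pool.Agent.H.MP_144feb_an
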