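import Pool.Agent.H.MP_144feb_an.Growth

/-!
# Letter counts of legal words have digit expansions
-/

namespace Pool.Agent.H.MP_144feb_an

variable {A : Type*} [Fintype A] [DecidableEq A]
variable {θ : A → Set (List A)} {M : Matrix A A ℕ} {k0 : ℕ}

theorem length_theta_le (hM : IsMatrixOf θ M) (a : A) (x : List A) (hx : x ∈ θ a) :
    x.length ≤ lmax M 1 := by
  have : x ∈ iter θ 1 [a] := (mem_iter_one θ [a] x).2 ((mem_real_singleton θ a x).2 hx)
  rw [length_iter_singleton hM 1 a x this]
  exact len_le_lmax M 1 a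

theorem prefix_real (hM : IsMatrixOf θ M) (v w α : List A) (hw : w ∈ real θ v) (hα : α <+: w) :
    ∃ v' β t, v' <+: v ∧ β ∈ real θ v' ∧ α = β ++ t ∧ t.length ≤ lmax M 1 := by
  induction v generalizing w α with
  | nil =>
    have : w = [] := (mem_real_nil θ w).1 hw
    subst this
    have : α = [] := List.prefix_nil.1 hα
    subst this
    exact ⟨[], [], [], List.prefix_refl _, rfl, rfl, Nat.zero_le _⟩
  | cons a v ih =>
    obtain ⟨x, hx, y, hy, rfl⟩ := hw
    obtain ⟨r, hr⟩ := hα
    rcases List.append_eq_append_iff.1 hr with ⟨a', h1, h2⟩ | ⟨c', h1, h2⟩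
    · refine ⟨[], [], α, List.nil_prefix, rfl, rfl, ?_⟩
      have h3 := length_theta_le hM a x hx
      rw [h1, List.length_append] at h3
      omega
    · subst h1
      obtain ⟨v', β, t, h3, h4, h5, h6⟩ := ih y c' hy ⟨r, h2.symm⟩
      refine ⟨a :: v', x ++ β, t, ?_, ⟨x, hx, β, h4, rfl⟩, ?_, h6⟩
      · exact (List.prefix_cons_inj a).2 h3
      · rw [h5, List.append_assoc]

theorem infix_real (hM : IsMatrixOf θ M) (v w α : List A) (hw : w ∈ real θ v) (hα : α <:+: w) :
    ∃ v' s β t, v' <:+: v ∧ β ∈ real θ v' ∧ α = s ++ β ++ t ∧ s.length ≤ lmax M 1 ∧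
      t.length ≤ lmax M 1 := by
  induction v generalizing w with
  | nil =>
    have : w = [] := (mem_real_nil θ w).1 hw
    subst this
    have : α = [] := List.infix_nil.1 hα
    subst this
    exact ⟨[], [], [], [], List.infix_refl _, rfl, rfl, Nat.zero_le _, Nat.zero_le _⟩
  | cons a v ih =>
    obtain ⟨x, hx, y, hy, rfl⟩ := hw
    obtain ⟨s0, t0, hr⟩ := hα
    rw [List.append_assoc] at hr
    have hxl := length_theta_le hM a x hx
    rcases List.append_eq_append_iff.1 hr with ⟨a', h1, h2⟩ | ⟨c', h1, h2⟩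
    · rcases List.append_eq_append_iff.1 h2 with ⟨d, h3, h4⟩ | ⟨d, h3, h4⟩
      · refine ⟨[], α, [], [], List.nil_infix, rfl, by simp, ?_, Nat.zero_le _⟩
        rw [h1, h3, List.length_append, List.length_append] at hxl
        omega
      · obtain ⟨v', β, t, h5, h6, h7, h8⟩ := prefix_real hM v y d hy ⟨t0, h4.symm⟩
        refine ⟨v', a', β, t, ?_, h6, ?_, ?_, h8⟩
        · exact h5.isInfix.trans (List.suffix_cons a v).isInfix
        · rw [h3, h7, List.append_assoc]
        · rw [h1, List.length_append] at hxl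
          omega
    · obtain ⟨v', s, β, t, h5, h6, h7, h8, h9⟩ := ih y hy ⟨c', t0, by
        rw [h2, List.append_assoc]⟩
      exact ⟨v', s, β, t, h5.trans (List.suffix_cons a v).isInfix, h6, h7, h8, h9⟩

/-- The integer vector of letter counts. -/
def abz (u : List A) : A → ℤ := fun b => (ab u b : ℤ)

omit [Fintype A] in
theorem abz_append (u v : List A) : abz (u ++ v) = abz u + abz v := by
  funext b
  simp [abz, ab_append]

theorem sum_abs_abz (u : List A) : ∑ b, |abz u b| = u.length := by
  rw [← sum_ab u]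
  push_cast
  apply Finset.sum_congr rfl
  intro b _
  simp [abz]

theorem abz_iter (hM : IsMatrixOf θ M) (k : ℕ) (u w : List A) (h : w ∈ iter θ k u) :
    abz w = ((M.map (Nat.cast : ℕ → ℤ)) ^ k).mulVec (abz u) := by
  have h1 := ab_iter hM k u w h
  funext b
  have h2 : (M.map (Nat.cast : ℕ → ℤ)) ^ k = (M ^ k).map (Nat.cast : ℕ → ℤ) := by
    have := (Matrix.map_pow (f := Nat.castRingHom ℤ) M k)
    exact this.symm
  rw [h2]
  show ((ab w b : ℕ) : ℤ) = _
  rw [h1]
  simp only [Matrix.mulVec, dotProduct, Matrix.map_apply]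
  push_cast
  rfl

theorem dig_iter (hM : IsMatrixOf θ M) (k : ℕ) (a : A) (w : List A) (hw : w ∈ iter θ k [a])
    (α : List A) (hα : α <:+: w) :
    Dig (M.map (Nat.cast : ℕ → ℤ)) (2 * lmax M 1 + 1 : ℕ) (abz α) := by
  induction k generalizing w α with
  | zero =>
    have : w = [a] := hw
    subst this
    apply Dig.base
    rw [sum_abs_abz]
    have := hα.length_le
    simp only [List.length_singleton] at this
    push_cast
    omega
  | succ k ih =>
    obtain ⟨v, hv, hw⟩ := hw
    obtain ⟨v', s, β, t, h1, h2, h3, h4, h5⟩ := infix_real hM v w α hw hα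
    have h6 := ih v hv v' h1
    have h7 : abz α = (M.map (Nat.cast : ℕ → ℤ)).mulVec (abz v') + abz (s ++ t) := by
      have := abz_iter hM 1 v' β ((mem_iter_one θ v' β).2 h2)
      rw [pow_one] at this
      rw [h3, abz_append, abz_append, abz_append, ← this]
      ring
    rw [h7]
    apply Dig.step _ _ h6
    rw [sum_abs_abz, List.length_append]
    push_cast
    omega

theorem legal_dig (hM : IsMatrixOf θ M) (α : List A) (hα : Legal θ α) :
    Dig (M.map (Nat.cast : ℕ → ℤ)) (2 * lmax M 1 + 1 : ℕ) (abz α) := by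
  obtain ⟨k, _, a, w, hw, h⟩ := hα
  exact dig_iter hM k a w hw α h

end Pool.Agent.H.MP_144feb_an
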