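import Pool.Agent.H.MP_144feb_an.Basic

/-!
# Growth of primitive random substitutions and the concatenation property
-/

namespace Pool.Agent.H.MP_144feb_an

variable {A : Type*} [Fintype A] [DecidableEq A]

/-- The standing assumptions. -/
structure Good (θ : A → Set (List A)) (M : Matrix A A ℕ) (k0 : ℕ) : Prop where
  rs : IsRandomSubstitution θ
  mat : IsMatrixOf θ M
  one_le : 1 ≤ k0
  pos : ∀ i j, 0 < (M ^ k0) i j

theorem len_add (M : Matrix A A ℕ) (i j : ℕ) (a : A) :
    len M (i + j) a = ∑ c, len M i c * (M ^ j) c a := by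
  simp only [len, pow_add, Matrix.mul_apply, Finset.sum_mul]
  rw [Finset.sum_comm]

theorem len_add_le (M : Matrix A A ℕ) (i j : ℕ) (a : A) :
    len M (i + j) a ≤ lmax M i * len M j a := by
  rw [len_add, len, Finset.mul_sum]
  exact Finset.sum_le_sum fun c _ => Nat.mul_le_mul_right _ (len_le_lmax M i c)

section

variable {θ : A → Set (List A)} {M : Matrix A A ℕ} {k0 : ℕ}

theorem Good.len_pos (h : Good θ M k0) (j : ℕ) (a : A) : 0 < len M j a := by
  obtain ⟨w, hw⟩ := iter_nonempty h.rs j [a]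
  rw [← length_iter_singleton h.mat j a w hw]
  have := length_le_iter h.rs j [a] w hw
  simp at this
  omega

theorem Good.le_pow (h : Good θ M k0) (j : ℕ) (b a : A) :
    len M j a ≤ (M ^ (k0 + j)) b a := by
  rw [pow_add, Matrix.mul_apply, len]
  apply Finset.sum_le_sum
  intro c _
  exact Nat.le_mul_of_pos_left _ (h.pos b c)

theorem Good.pow_pos (h : Good θ M k0) (n : ℕ) (hn : k0 ≤ n) (b a : A) : 0 < (M ^ n) b a := by
  obtain ⟨j, rfl⟩ := Nat.exists_eq_add_of_le hn
  exact lt_of_lt_of_le (h.len_pos j a) (h.le_pow j b a)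

theorem Good.letter_mem (h : Good θ M k0) (n : ℕ) (hn : k0 ≤ n) (b c : A) (w : List A)
    (hw : w ∈ iter θ n [c]) : b ∈ w := by
  have h1 := ab_iter h.mat n [c] w hw
  rw [ab_singleton, Matrix.mulVec_single_one] at h1
  have h2 := congrFun h1 b
  have h3 := h.pow_pos n hn b c
  rw [Matrix.col_apply] at h2
  rw [← h2] at h3
  exact List.count_pos_iff.1 h3

theorem Good.len_mono_one (h : Good θ M k0) (j : ℕ) (a : A) : len M j a ≤ len M (j + 1) a := by
  rw [add_comm, len_add]
  conv_lhs => rw [len]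
  apply Finset.sum_le_sum
  intro c _
  exact Nat.le_mul_of_pos_left _ (h.len_pos 1 c)

theorem Good.len_mono (h : Good θ M k0) {i j : ℕ} (hij : i ≤ j) (a : A) :
    len M i a ≤ len M j a := by
  induction j, hij using Nat.le_induction with
  | base => exact le_rfl
  | succ j _ ih => exact ih.trans (h.len_mono_one j a)

theorem Good.two_le_len [Nontrivial A] (h : Good θ M k0) (c : A) : 2 ≤ len M k0 c := by
  have h1 : ∑ b : A, 1 ≤ len M k0 c := Finset.sum_le_sum fun b _ => h.pos b c
  have h2 : 2 ≤ Fintype.card A := Fintype.one_lt_card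
  simp at h1
  omega

theorem Good.two_mul_len [Nontrivial A] (h : Good θ M k0) (j : ℕ) (a : A) :
    2 * len M j a ≤ len M (k0 + j) a := by
  rw [len_add]
  conv_lhs => rw [len, Finset.mul_sum]
  exact Finset.sum_le_sum fun c _ => Nat.mul_le_mul_right _ (h.two_le_len c)

theorem Good.le_len [Nontrivial A] (h : Good θ M k0) (j : ℕ) (a : A) :
    j ≤ len M (k0 * j) a := by
  induction j with
  | zero => simp
  | succ j ih =>
    have h1 := h.two_mul_len (k0 * j) a
    have h2 := h.len_pos (k0 * j) a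
    rw [show k0 * (j + 1) = k0 + k0 * j by ring]
    omega

theorem Good.exists_len_ge [Nontrivial A] (h : Good θ M k0) (N : ℕ) :
    ∃ m, ∀ m', m ≤ m' → ∀ a, N ≤ len M m' a :=
  ⟨k0 * N, fun _ hm' a => (h.le_len N a).trans (h.len_mono hm' a)⟩

theorem Good.exists_ratio (h : Good θ M k0) :
    ∃ κ : ℕ, ∀ m, k0 ≤ m → ∀ a b, len M m a ≤ κ * len M m b := by
  refine ⟨∑ i, ∑ j, (M ^ k0) i j, fun m hm a b => ?_⟩
  obtain ⟨i, rfl⟩ := Nat.exists_eq_add_of_le' hm
  have h1 : len M (i + k0) a ≤ (∑ i, ∑ j, (M ^ k0) i j) * ∑ c, len M i c := by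
    rw [len_add, Finset.mul_sum]
    apply Finset.sum_le_sum
    intro c _
    rw [mul_comm]
    apply Nat.mul_le_mul_right
    calc (M ^ k0) c a ≤ ∑ j, (M ^ k0) c j :=
          Finset.single_le_sum (f := fun j => (M ^ k0) c j) (fun _ _ => Nat.zero_le _)
            (Finset.mem_univ a)
      _ ≤ _ := Finset.single_le_sum (f := fun i => ∑ j, (M ^ k0) i j)
            (fun _ _ => Nat.zero_le _) (Finset.mem_univ c)
  have h2 : ∑ c, len M i c ≤ len M (i + k0) b := by
    rw [len_add]
    apply Finset.sum_le_sum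
    intro c _
    exact Nat.le_mul_of_pos_right _ (h.pos c b)
  exact h1.trans (Nat.mul_le_mul_left _ h2)

/-! ### Many realisations -/

theorem exists_real_many (hθ : IsRandomSubstitution θ) (hM : IsMatrixOf θ M) (b0 : A)
    (v1 v2 : List A) (h1 : v1 ∈ θ b0) (h2 : v2 ∈ θ b0) (h12 : v1 ≠ v2) (u : List A) :
    ∃ T : Finset (List A), (∀ w ∈ T, w ∈ real θ u) ∧ 2 ^ (u.count b0) ≤ T.card := by
  have hlen : v1.length = v2.length := by
    rw [← sum_ab, ← sum_ab]
    apply Finset.sum_congr rfl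
    intro b _
    show v1.count b = v2.count b
    rw [← hM b0 v1 h1 b, ← hM b0 v2 h2 b]
  induction u with
  | nil => exact ⟨{[]}, by simp [real], by simp⟩
  | cons a u ih =>
    obtain ⟨T, hT, hcard⟩ := ih
    by_cases hab : a = b0
    · subst hab
      refine ⟨T.image (fun w => v1 ++ w) ∪ T.image (fun w => v2 ++ w), ?_, ?_⟩
      · intro w hw
        rcases Finset.mem_union.1 hw with hw | hw
        · obtain ⟨w', hw', rfl⟩ := Finset.mem_image.1 hw
          exact ⟨v1, h1, w', hT w' hw', rfl⟩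
        · obtain ⟨w', hw', rfl⟩ := Finset.mem_image.1 hw
          exact ⟨v2, h2, w', hT w' hw', rfl⟩
      · rw [Finset.card_union_of_disjoint, Finset.card_image_of_injective,
          Finset.card_image_of_injective]
        · rw [List.count_cons_self, pow_succ]
          omega
        · intro x y hxy
          exact List.append_cancel_left hxy
        · intro x y hxy
          exact List.append_cancel_left hxy
        · rw [Finset.disjoint_left]
          intro w hw hw'
          obtain ⟨x, hx, rfl⟩ := Finset.mem_image.1 hw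
          obtain ⟨y, hy, hxy⟩ := Finset.mem_image.1 hw'
          exact h12 (List.append_inj_left hxy hlen.symm).symm
    · obtain ⟨v, hv⟩ := hθ.nonempty a
      refine ⟨T.image (fun w => v ++ w), ?_, ?_⟩
      · intro w hw
        obtain ⟨w', hw', rfl⟩ := Finset.mem_image.1 hw
        exact ⟨v, hv, w', hT w' hw', rfl⟩
      · rw [Finset.card_image_of_injective]
        · rw [List.count_cons_of_ne hab]
          exact hcard
        · intro x y hxy
          exact List.append_cancel_left hxy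

/-- Exponentially many words in `iter θ m [a]`. -/
theorem Good.exists_many [Nontrivial A] (h : Good θ M k0) (hn : NonDegenerate θ) :
    ∃ q : ℕ, 0 < q ∧ ∀ m, k0 + 1 ≤ m → ∀ a, ∃ T : Finset (List A),
      (∀ w ∈ T, w ∈ iter θ m [a]) ∧ ∃ N, 2 ^ N ≤ T.card ∧ lmax M m ≤ q * N := by
  obtain ⟨b0, v1, h1, v2, h2, h12⟩ := hn
  obtain ⟨κ, hκ⟩ := h.exists_ratio
  refine ⟨κ * lmax M (k0 + 1) + 1, by omega, fun m hm a => ?_⟩
  obtain ⟨j, rfl⟩ := Nat.exists_eq_add_of_le hm
  obtain ⟨v, hv⟩ := iter_nonempty h.rs (k0 + j) [a]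
  obtain ⟨T, hT, hcard⟩ := exists_real_many h.rs h.mat b0 v1 v2 h1 h2 h12 v
  refine ⟨T, fun w hw => ?_, v.count b0, hcard, ?_⟩
  · rw [show k0 + 1 + j = (k0 + j) + 1 by ring]
    exact ⟨v, hv, hT w hw⟩
  · have e1 : v.count b0 = (M ^ (k0 + j)) b0 a := by
      have := congrFun (ab_iter h.mat (k0 + j) [a] v hv) b0
      rw [ab_singleton, Matrix.mulVec_single_one, Matrix.col_apply] at this
      exact this
    have e2 : len M j a ≤ v.count b0 := by
      rw [e1]
      exact h.le_pow j b0 a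
    obtain ⟨c, hc⟩ := exists_len_eq_lmax M (k0 + 1 + j)
    rw [← hc]
    calc len M (k0 + 1 + j) c ≤ κ * len M (k0 + 1 + j) a := hκ _ (by omega) _ _
      _ ≤ κ * (lmax M (k0 + 1) * len M j a) := Nat.mul_le_mul_left _ (len_add_le M _ _ _)
      _ ≤ κ * (lmax M (k0 + 1) * v.count b0) := by gcongr
      _ = κ * lmax M (k0 + 1) * v.count b0 := by ring
      _ ≤ (κ * lmax M (k0 + 1) + 1) * v.count b0 := by gcongr; omega

/-! ### Legal words -/

theorem Good.legal_singleton (h : Good θ M k0) (a : A) : Legal θ [a] := by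
  obtain ⟨w, hw⟩ := iter_nonempty h.rs k0 [a]
  refine ⟨k0, h.one_le, a, w, hw, ?_⟩
  have := h.letter_mem k0 le_rfl a a w hw
  obtain ⟨s, t, rfl⟩ := List.append_of_mem this
  exact ⟨s, t, by simp⟩

theorem Good.exists_legal_length [Nontrivial A] (h : Good θ M k0) (N : ℕ) :
    ∃ g, Legal θ g ∧ g.length = N := by
  obtain ⟨m, hm⟩ := h.exists_len_ge N
  obtain ⟨a⟩ : Nonempty A := inferInstance
  obtain ⟨w, hw⟩ := iter_nonempty h.rs (m + 1) [a]
  have h1 := hm (m + 1) (by omega) a
  rw [← length_iter_singleton h.mat _ a w hw] at h1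
  refine ⟨w.take N, legal_infix ⟨m + 1, by omega, a, w, hw, List.infix_refl w⟩
    (List.take_prefix N w).isInfix, ?_⟩
  simp [h1]

/-- A legal word occurs in some word of `iter θ n [c]`, for all large `n` and all `c`. -/
theorem Good.exists_lift (h : Good θ M k0) (g : List A) (hg : Legal θ g) :
    ∃ n1, ∀ n, n1 ≤ n → ∀ c, ∃ w ∈ iter θ n [c], g <:+: w := by
  obtain ⟨k, hk, a, w0, hw0, hgw⟩ := hg
  refine ⟨k0 + k, fun n hn c => ?_⟩
  obtain ⟨j, rfl⟩ := Nat.exists_eq_add_of_le' hn
  obtain ⟨v, hv⟩ := iter_nonempty h.rs (j + k0) [c]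
  have hmem := h.letter_mem (j + k0) (by omega) a c v hv
  obtain ⟨s, t, rfl⟩ := List.append_of_mem hmem
  obtain ⟨s', hs'⟩ := iter_nonempty h.rs k s
  obtain ⟨t', ht'⟩ := iter_nonempty h.rs k t
  refine ⟨s' ++ (w0 ++ t'), ?_, ?_⟩
  · rw [← add_assoc, mem_iter_add]
    refine ⟨_, hv, ?_⟩
    rw [mem_iter_append]
    refine ⟨s', hs', w0 ++ t', ?_, rfl⟩
    rw [mem_iter_cons]
    exact ⟨w0, hw0, t', ht', rfl⟩
  · exact hgw.trans ⟨s', t', by simp⟩

/-- A legal word is a subword of a realisation of a legal word. -/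
theorem Good.exists_desub (h : Good θ M k0) (g : List A) (hg : Legal θ g) (m : ℕ) :
    ∃ γ, Legal θ γ ∧ ∃ W ∈ iter θ m γ, g <:+: W := by
  obtain ⟨n1, hn1⟩ := h.exists_lift g hg
  obtain ⟨k, hk, a, w0, hw0, hgw⟩ := hg
  obtain ⟨w, hw, hgw⟩ := hn1 ((n1 + 1) + m) (by omega) a
  rw [mem_iter_add] at hw
  obtain ⟨v, hv, hw⟩ := hw
  exact ⟨v, ⟨n1 + 1, by omega, a, v, hv, List.infix_refl v⟩, w, hw, hgw⟩

/-- The language of legal words has the concatenation property. -/
theorem Good.concat [Nontrivial A] (h : Good θ M k0) : Concat (Legal θ) := by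
  intro S hS hSL
  obtain ⟨n, hn⟩ : ∃ n, ∀ g ∈ S, ∀ c, ∃ w ∈ iter θ n [c], g <:+: w := by
    have key : ∀ g : S, ∃ n1, ∀ n, n1 ≤ n → ∀ c, ∃ w ∈ iter θ n [c], g.1 <:+: w :=
      fun g => h.exists_lift g.1 (hSL g.1 g.2)
    choose f hf using key
    have := hS.to_subtype
    have := Fintype.ofFinite S
    refine ⟨Finset.univ.sup f, fun g hg c => hf ⟨g, hg⟩ _ ?_ c⟩
    exact Finset.le_sup (f := f) (Finset.mem_univ _)
  refine ⟨lmax M n, fun G hG => ?_⟩
  obtain ⟨c, hc, hlen⟩ := h.exists_legal_length G.length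
  have key : ∀ (G : List (List A)), (∀ g ∈ G, g ∈ S) → ∀ c : List A, c.length = G.length →
      ∃ Bs : List (List A), List.Forall₂ (fun b g => g <:+: b ∧ b.length ≤ lmax M n) Bs G ∧
        Bs.flatten ∈ iter θ n c := by
    intro G
    induction G with
    | nil =>
      intro _ c hc
      have : c = [] := List.eq_nil_of_length_eq_zero hc
      subst this
      exact ⟨[], List.Forall₂.nil, (mem_iter_nil θ n _).2 rfl⟩
    | cons g G ih =>
      intro hG c hc
      match c, hc with
      | [], hc => simp at hc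
      | a :: c, hc =>
        obtain ⟨Bs, hBs, hfl⟩ := ih (fun g' hg' => hG g' (List.mem_cons_of_mem _ hg')) c
          (by simpa using hc)
        obtain ⟨w, hw, hgw⟩ := hn g (hG g List.mem_cons_self) a
        refine ⟨w :: Bs, List.Forall₂.cons ⟨hgw, ?_⟩ hBs, ?_⟩
        · rw [length_iter_singleton h.mat n a w hw]
          exact len_le_lmax M n a
        · rw [mem_iter_cons, List.flatten_cons]
          exact ⟨w, hw, _, hfl, rfl⟩
  obtain ⟨Bs, hBs, hfl⟩ := key G hG c hlen
  exact ⟨Bs, hBs, legal_iter h.rs hc n hfl⟩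

end

end Pool.Agent.H.MP_144feb_an
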