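import Pool.Agent.H.MP_144feb_an.Pigeon

/-!
# Existence of an interchangeable pair, given the sparse lemma
-/

namespace Pool.Agent.H.MP_144feb_an

variable {A : Type*} [Fintype A] [DecidableEq A]
variable {θ : A → Set (List A)} {M : Matrix A A ℕ} {k0 : ℕ}

theorem Good.exists_inter_of_sparse [Nontrivial A] (h : Good θ M k0) (hn : NonDegenerate θ)
    (hsp : ∀ D B : ℤ, ∃ m0 : ℕ, ∀ m, m0 ≤ m → ∀ v v' : A → ℤ,
      Dig (M.map (Nat.cast : ℕ → ℤ)) D v → Dig (M.map (Nat.cast : ℕ → ℤ)) D v' →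
      ∀ y : A → ℤ, (∀ b, 0 ≤ y b) → y ≠ 0 → ∑ b, y b ≤ B →
        ((M.map (Nat.cast : ℕ → ℤ)) ^ m).mulVec (v' - v) ≠ y) :
    ∃ V V' : List A, V ≠ V' ∧ V.length = V'.length ∧ Legal θ V ∧ Inter (Legal θ) V V' := by
  classical
  obtain ⟨q, hq, hmany⟩ := h.exists_many hn
  obtain ⟨κ, hκ⟩ := h.exists_ratio
  obtain ⟨a⟩ : Nonempty A := inferInstance
  -- the finite set of words of length at most `3 κ`
  have hfin : {u : List A | u.length ≤ 3 * κ}.Finite := List.finite_length_le A (3 * κ)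
  obtain ⟨Wd, hWd⟩ : ∃ Wd : Finset (List A), ∀ u, u ∈ Wd ↔ u.length ≤ 3 * κ :=
    ⟨hfin.toFinset, fun u => by simp⟩
  have hK1 : 0 < Wd.card := Finset.card_pos.2 ⟨[], (hWd _).2 (Nat.zero_le _)⟩
  generalize hK : Wd.card = K1 at hK1
  obtain ⟨m0, hm0⟩ := hsp (2 * lmax M 1 + 1 : ℕ) ((2 * q * K1 : ℕ) : ℤ)
  obtain ⟨m1, hm1⟩ := h.exists_len_ge (2 * q * K1 + 1)
  obtain ⟨m, hmm0, hmm1, hmk⟩ : ∃ m, m0 ≤ m ∧ m1 ≤ m ∧ k0 + 1 ≤ m :=
    ⟨m0 + m1 + k0 + 1, by omega, by omega, by omega⟩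
  have hL : 2 * q * K1 + 1 ≤ lmax M m := (hm1 m hmm1 a).trans (len_le_lmax M m a)
  obtain ⟨T, hT, N, hTN, hLN⟩ := hmany m hmk a
  have hκm := hκ m (by omega)
  obtain ⟨Q, c, hQ, hcQ, hcut⟩ := h.forced_cut m
  -- choose `Z` and `Z'`
  obtain ⟨g, hg, WQ, hWQ, s, t, hst⟩ := h.exists_desub Q hQ m
  obtain ⟨z, z', hz, hz'⟩ := h.exists_between g hg a (lmax M m)
  obtain ⟨Wz, hWz⟩ := iter_nonempty h.rs m z
  obtain ⟨Z', hZ'⟩ := iter_nonempty h.rs m z'
  have hZ'l : lmax M m ≤ Z'.length := hz'.trans (length_le_iter h.rs m z' Z' hZ')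
  obtain ⟨Z, hZ⟩ : ∃ Z, Z = t ++ Wz := ⟨_, rfl⟩
  have hVleg : ∀ w ∈ iter θ m [a], Legal θ (Q ++ Z ++ w ++ Z') := by
    intro w hw
    have h1 : WQ ++ (Wz ++ (w ++ Z')) ∈ iter θ m (g ++ (z ++ ([a] ++ z'))) := by
      rw [mem_iter_append]
      refine ⟨WQ, hWQ, _, ?_, rfl⟩
      rw [mem_iter_append]
      refine ⟨Wz, hWz, _, ?_, rfl⟩
      rw [mem_iter_append]
      exact ⟨w, hw, Z', hZ', rfl⟩
    refine legal_infix (legal_iter h.rs hz m h1) ⟨s, [], ?_⟩
    rw [← hst, hZ]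
    simp
  -- the set `O`
  generalize hR0 : Q.drop c ++ Z = R0
  obtain ⟨O, hO⟩ : ∃ O : Finset ℕ, ∀ p, p ∈ O ↔ (p ≤ R0.length ∧ R0.length ≤ p + lmax M m ∧
      ∃ γ1, Legal θ γ1 ∧ R0.take p ∈ iter θ m γ1) := by
    refine ⟨(Finset.range (R0.length + 1)).filter (fun p => R0.length ≤ p + lmax M m ∧
      ∃ γ1, Legal θ γ1 ∧ R0.take p ∈ iter θ m γ1), fun p => ?_⟩
    rw [Finset.mem_filter, Finset.mem_range, Nat.lt_succ_iff]
  have hsep : ∀ p ∈ O, ∀ p' ∈ O, p < p' → p + 2 * q * K1 < p' := by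
    intro p hp p' hp' hlt
    obtain ⟨hp1, hp2, γ1, hγ1, hp3⟩ := (hO p).1 hp
    obtain ⟨hp1', hp2', γ1', hγ1', hp3'⟩ := (hO p').1 hp'
    by_contra hcon
    push Not at hcon
    obtain ⟨y, hy⟩ : ∃ y, y = (R0.take p').drop p := ⟨_, rfl⟩
    have e1 : R0.take p' = R0.take p ++ y := by
      rw [hy]
      conv_lhs => rw [← List.take_append_drop p (R0.take p'), List.take_take]
      rw [min_eq_left hlt.le]
    have hyl : y.length = p' - p := by
      rw [hy, List.length_drop, List.length_take]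
      omega
    have e2 : abz (R0.take p') = abz (R0.take p) + abz y := by rw [e1, abz_append]
    rw [abz_iter h.mat m γ1 _ hp3, abz_iter h.mat m γ1' _ hp3'] at e2
    refine hm0 m hmm0 (abz γ1) (abz γ1') (legal_dig h.mat _ hγ1) (legal_dig h.mat _ hγ1')
      (abz y) (fun b => ?_) ?_ ?_ ?_
    · simp [abz]
    · intro h0
      have h1 := sum_abs_abz y
      rw [h0, hyl] at h1
      simp at h1
      omega
    · have h1 := sum_abs_abz y
      have h2 : ∑ b, abz y b = ∑ b, |abz y b| :=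
        Finset.sum_congr rfl fun b _ => by simp [abz]
      rw [h2, h1, hyl]
      have h3 : p' - p ≤ 2 * q * K1 := by omega
      exact_mod_cast h3
    · rw [Matrix.mulVec_sub, e2]
      simp
  have hOcard : O.card * (2 * q * K1) ≤ lmax M m + 2 * q * K1 := by
    apply sep_card O R0.length (lmax M m) (2 * q * K1) (by positivity)
    · intro p hp
      have := (hO p).1 hp
      exact ⟨this.2.1, this.1⟩
    · exact hsep
  -- pigeonhole
  let Df : List A → Finset (ℕ × List A) := fun w =>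
    (O ×ˢ Wd).filter (fun x => ∃ k, R0.drop x.1 ++ w ++ Z'.take k ∈ iter θ m x.2)
  have hcard : ((O ×ˢ Wd).powerset).card < T.card := by
    rw [Finset.card_powerset, Finset.card_product, hK]
    refine lt_of_lt_of_le ?_ hTN
    apply Nat.pow_lt_pow_right (by norm_num)
    by_contra hcon
    push Not at hcon
    have h1 : q * N ≤ q * (O.card * K1) := Nat.mul_le_mul_left _ hcon
    have h2 : 2 * (q * (O.card * K1)) = O.card * (2 * q * K1) := by ring
    omega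
  obtain ⟨w, hwT, w', hwT', hne, hDeq⟩ := Finset.exists_ne_map_eq_of_card_lt_of_maps_to hcard
    (f := Df) (fun w _ => Finset.mem_powerset.2 (Finset.filter_subset _ _))
  have hw := hT w hwT
  have hw' := hT w' hwT'
  have half : ∀ w w', w ∈ iter θ m [a] → w' ∈ iter θ m [a] → Df w = Df w' → ∀ l r,
      Legal θ (l ++ (Q ++ Z ++ w ++ Z') ++ r) → Legal θ (l ++ (Q ++ Z ++ w' ++ Z') ++ r) := by
    intro w w' hw hw' hDD l r hl
    refine h.half m κ hκm Q c hcut Z Z' w w' a hZ'l hw hw' ?_ l r hl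
    rw [hR0]
    intro p β hp1 hp2 hp3 hβ hk
    have h1 : (p, β) ∈ Df w :=
      Finset.mem_filter.2 ⟨Finset.mem_product.2 ⟨(hO p).2 ⟨hp1, hp2, hp3⟩, (hWd β).2 hβ⟩, hk⟩
    rw [hDD] at h1
    exact (Finset.mem_filter.1 h1).2
  refine ⟨Q ++ Z ++ w ++ Z', Q ++ Z ++ w' ++ Z', ?_, ?_, hVleg w hw, fun l r => ?_⟩
  · intro heq
    apply hne
    have h1 := List.append_cancel_right heq
    exact List.append_cancel_left h1
  · simp only [List.length_append, length_iter_singleton h.mat m a w hw,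
      length_iter_singleton h.mat m a w' hw']
  · exact ⟨half w w' hw hw' hDeq l r, half w' w hw' hw hDeq.symm l r⟩

end Pool.Agent.H.MP_144feb_an
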