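import Pool.Agent.H.MP_144feb_an.Defs

/-!
# General languages: factor-closed languages, the concatenation property, interchangeable words
-/

namespace Pool.Agent.H.MP_144feb_an

variable {A : Type*}

/-- `L` is closed under taking subwords. -/
def Factorial (L : List A → Prop) : Prop := ∀ u v, L u → v <:+: u → L v

/-- For every finite set `S` of words of `L` there is a constant `C` such that every finite
sequence of words of `S` occurs, in this order, in consecutive blocks of length at most `C` of
some word of `L`. -/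
def Concat (L : List A → Prop) : Prop :=
  ∀ S : Set (List A), S.Finite → (∀ g ∈ S, L g) →
    ∃ C : ℕ, ∀ G : List (List A), (∀ g ∈ G, g ∈ S) →
      ∃ Bs : List (List A), List.Forall₂ (fun b g => g <:+: b ∧ b.length ≤ C) Bs G ∧
        L Bs.flatten

/-- `V` and `V'` are interchangeable in `L`. -/
def Inter (L : List A → Prop) (V V' : List A) : Prop :=
  ∀ l r : List A, L (l ++ V ++ r) ↔ L (l ++ V' ++ r)

/-- `P` does not occur in `P ++ R` at a position `j` with `0 < j ≤ |R|`. -/
def NoOv (P R : List A) : Prop :=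
  ∀ j, 0 < j → j ≤ R.length → ((P ++ R).drop j).take P.length ≠ P

/-- The occurrences of `P V S` and `P V' S` in `x`. -/
def Occ (P V V' S : List A) (x : ℤ → A) : Set ℤ :=
  {i | win x i (P.length + V.length + S.length) = P ++ V ++ S ∨
       win x i (P.length + V.length + S.length) = P ++ V' ++ S}

/-- `Dig M D v`: the integer vector `v` has an expansion `δ₀ + M δ₁ + M² δ₂ + ⋯ + Mⁿ δₙ` with
digits `δᵢ` of `ℓ¹`-norm at most `D`. -/
inductive Dig [Fintype A] (M : Matrix A A ℤ) (D : ℤ) : (A → ℤ) → Prop
  | base (v : A → ℤ) : ∑ b, |v b| ≤ D → Dig M D v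
  | step (v δ : A → ℤ) : Dig M D v → ∑ b, |δ b| ≤ D → Dig M D (M.mulVec v + δ)

theorem win_length (x : ℤ → A) (i : ℤ) (n : ℕ) : (win x i n).length = n := by
  simp [win]

theorem win_getElem (x : ℤ → A) (i : ℤ) (n : ℕ) (j : ℕ) (h : j < (win x i n).length) :
    (win x i n)[j] = x (i + j) := by
  simp [win]

theorem win_getElem? (x : ℤ → A) (i : ℤ) (n : ℕ) (j : ℕ) (h : j < n) :
    (win x i n)[j]? = some (x (i + j)) := by
  simp [win, h]

theorem win_add (x : ℤ → A) (i : ℤ) (m n : ℕ) :
    win x i (m + n) = win x i m ++ win x (i + m) n := by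
  simp only [win, List.range_add, List.map_append, List.map_map]
  congr 1
  apply List.map_congr_left
  intro a _
  simp only [Function.comp]
  congr 1
  push_cast
  ring

theorem win_eq_iff (x y : ℤ → A) (i : ℤ) (n : ℕ) :
    win x i n = win y i n ↔ ∀ j : ℕ, j < n → x (i + j) = y (i + j) := by
  simp only [win, List.map_inj_left, List.mem_range]

/-- Every smaller window is a subword of a larger window. -/
theorem win_infix (x : ℤ → A) (i i' : ℤ) (n n' : ℕ) (h1 : i' ≤ i) (h2 : i + n ≤ i' + n') :
    win x i n <:+: win x i' n' := by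
  obtain ⟨a, ha⟩ : ∃ a : ℕ, i = i' + a := ⟨(i - i').toNat, by omega⟩
  obtain ⟨b, hb⟩ : ∃ b : ℕ, n' = a + n + b := ⟨n' - (a + n), by omega⟩
  subst ha hb
  rw [win_add, win_add]
  exact ⟨win x i' a, win x (i' + (a + n : ℕ)) b, by simp⟩

end Pool.Agent.H.MP_144feb_an
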