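import Pool.Agent.H.MP_345fd7_an.PFEig

/-! Perron-Frobenius: positive left eigenvector, eigenvalue greater than one, simplicity -/

set_option autoImplicit false

namespace Pool.Agent.H.MP_144feb_an

open Matrix

variable {A : Type*}

lemma pf_map_pow [Fintype A] [DecidableEq A] (M : Matrix A A ℤ) (k : ℕ) :
    (M.map (Int.cast : ℤ → ℝ)) ^ k = (M ^ k).map (Int.cast : ℤ → ℝ) := by
  have h := (map_pow (Int.castRingHom ℝ).mapMatrix M k)
  simp only [RingHom.mapMatrix_apply, Int.coe_castRingHom] at h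
  exact h.symm

lemma pf_vecMul_pow [Fintype A] [DecidableEq A] (N : Matrix A A ℝ) (lam : ℝ) (v : A → ℝ)
    (h : Matrix.vecMul v N = lam • v) (k : ℕ) : Matrix.vecMul v (N ^ k) = lam ^ k • v := by
  induction k with
  | zero => simp
  | succ m ih =>
    rw [pow_succ, ← Matrix.vecMul_vecMul, ih, Matrix.smul_vecMul, h, smul_smul, pow_succ]

theorem pf_left [Fintype A] [DecidableEq A] [Nontrivial A] (M : Matrix A A ℤ)
    (h0 : ∀ i j, 0 ≤ M i j) (k : ℕ) (hk : 1 ≤ k) (hpos : ∀ i j, 0 < (M ^ k) i j) :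
    ∃ (lam : ℝ) (u : A → ℝ), 1 < lam ∧ (∀ a, 0 < u a) ∧
      Matrix.vecMul u (M.map (Int.cast : ℤ → ℝ)) = lam • u ∧
      ∀ v : A → ℝ, Matrix.vecMul v (M.map (Int.cast : ℤ → ℝ)) = lam • v →
        ∃ c : ℝ, v = c • u := by
  set N : Matrix A A ℝ := M.map (Int.cast : ℤ → ℝ) with hN
  have hNk : N ^ k = (M ^ k).map (Int.cast : ℤ → ℝ) := pf_map_pow M k
  have hNk1 : ∀ i j, (1 : ℝ) ≤ (N ^ k) i j := by
    intro i j
    rw [hNk, Matrix.map_apply]
    exact_mod_cast hpos i j
  obtain ⟨lam, hlam, u, hu, heig⟩ := Pool.Agent.H.MP_345fd7_an.pf_eigen Nᵀ (by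
      intro i j
      rw [Matrix.transpose_apply, hN, Matrix.map_apply]
      exact_mod_cast h0 j i) ⟨k, hk, by
      intro i j
      rw [← Matrix.transpose_pow, Matrix.transpose_apply]
      exact lt_of_lt_of_le one_pos (hNk1 j i)⟩
  have hvm : Matrix.vecMul u N = lam • u := by
    funext i
    have h1 := heig i
    simp only [Matrix.transpose_apply] at h1
    simp only [Matrix.vecMul, dotProduct, Pi.smul_apply, smul_eq_mul]
    rw [← h1]
    exact Finset.sum_congr rfl fun j _ => mul_comm _ _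
  have hvk := pf_vecMul_pow N lam u hvm k
  obtain ⟨a, b, hab⟩ := exists_pair_ne A
  have h1 : u a < lam ^ k * u a := by
    have h2 := congrFun hvk a
    simp only [Matrix.vecMul, dotProduct, Pi.smul_apply, smul_eq_mul] at h2
    rw [← h2]
    calc u a < u a + u b := by linarith [hu b]
      _ = ∑ c ∈ ({a, b} : Finset A), u c := by rw [Finset.sum_pair hab]
      _ ≤ ∑ c, u c := Finset.sum_le_sum_of_subset_of_nonneg (Finset.subset_univ _)
          fun c _ _ => (hu c).le
      _ ≤ ∑ c, u c * (N ^ k) c a := Finset.sum_le_sum fun c _ =>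
          le_mul_of_one_le_right (hu c).le (hNk1 c a)
  have hlam1 : 1 < lam := by
    by_contra hle
    push Not at hle
    have h3 : lam ^ k ≤ 1 := pow_le_one₀ hlam.le hle
    nlinarith [hu a]
  refine ⟨lam, u, hlam1, hu, hvm, fun v hv => ?_⟩
  obtain ⟨b0, _, hb0⟩ := Finset.exists_min_image Finset.univ (fun i => v i / u i)
    ⟨a, Finset.mem_univ a⟩
  set t := v b0 / u b0 with ht
  set w : A → ℝ := v - t • u with hw
  have hw0 : ∀ i, 0 ≤ w i := by
    intro i
    have h4 : t ≤ v i / u i := hb0 i (Finset.mem_univ i)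
    rw [le_div_iff₀ (hu i)] at h4
    simp only [hw, Pi.sub_apply, Pi.smul_apply, smul_eq_mul]
    linarith
  have hwb : w b0 = 0 := by
    simp only [hw, Pi.sub_apply, Pi.smul_apply, smul_eq_mul, ht]
    rw [div_mul_cancel₀ _ (hu b0).ne', sub_self]
  have hwv : Matrix.vecMul w N = lam • w := by
    rw [hw, Matrix.sub_vecMul, Matrix.smul_vecMul, hv, hvm, smul_sub, smul_comm]
  have hwk := pf_vecMul_pow N lam w hwv k
  have hz : w = 0 := by
    by_contra hne
    obtain ⟨j, hj⟩ := Function.ne_iff.1 hne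
    have hj' : 0 < w j := lt_of_le_of_ne (hw0 j) (Ne.symm hj)
    have h5 := congrFun hwk b0
    simp only [Matrix.vecMul, dotProduct, Pi.smul_apply, smul_eq_mul, hwb, mul_zero] at h5
    have h6 : 0 < ∑ c, w c * (N ^ k) c b0 :=
      Finset.sum_pos' (fun c _ => mul_nonneg (hw0 c) (zero_le_one.trans (hNk1 c b0)))
        ⟨j, Finset.mem_univ j, mul_pos hj' (lt_of_lt_of_le one_pos (hNk1 j b0))⟩
    linarith
  exact ⟨t, sub_eq_zero.1 hz⟩

end Pool.Agent.H.MP_144feb_an
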