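import Pool.Agent.H.MP_144feb_an.Lang
import Pool.Agent.H.MP_144feb_an.PF

/-! The number field lemma: `M ^ m (v' - v)` is not a small nonnegative vector for large `m` -/

set_option autoImplicit false

namespace Pool.Agent.H.MP_144feb_an

open Matrix IntermediateField

variable {A : Type*}

lemma sparse_integral [Fintype A] [DecidableEq A] (M : Matrix A A ℤ) (lam : ℝ) (u : A → ℝ)
    (hu : u ≠ 0) (h : Matrix.vecMul u (M.map (Int.cast : ℤ → ℝ)) = lam • u) :
    IsIntegral ℤ lam := by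
  refine ⟨M.charpoly, M.charpoly_monic, ?_⟩
  have h1 : (M.map (Int.castRingHom ℝ)).charpoly.eval lam = 0 := by
    rw [Matrix.eval_charpoly]
    apply Matrix.exists_vecMul_eq_zero_iff.1
    refine ⟨u, hu, ?_⟩
    rw [Matrix.vecMul_sub, Matrix.scalar_apply, ← Matrix.smul_one_eq_diagonal,
      Matrix.vecMul_smul, Matrix.vecMul_one]
    exact sub_eq_zero.2 h.symm
  rw [Matrix.charpoly_map, Polynomial.eval_map] at h1
  exact h1

/-- the linear functional given by a vector over a field -/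
def rho [Fintype A] {K : Type*} [CommRing K] (L : A → K) (w : A → ℤ) : K := ∑ b, L b * (w b : K)

lemma rho_add [Fintype A] {K : Type*} [CommRing K] (L : A → K) (w w' : A → ℤ) :
    rho L (w + w') = rho L w + rho L w' := by
  simp only [rho, Pi.add_apply, Int.cast_add, mul_add, Finset.sum_add_distrib]

lemma rho_sub [Fintype A] {K : Type*} [CommRing K] (L : A → K) (w w' : A → ℤ) :
    rho L (w - w') = rho L w - rho L w' := by
  simp only [rho, Pi.sub_apply, Int.cast_sub, mul_sub, Finset.sum_sub_distrib]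

lemma rho_mulVec [Fintype A] {K : Type*} [CommRing K] (L : A → K) (lam : K)
    (M : Matrix A A ℤ) (hL : Matrix.vecMul L (M.map (Int.cast : ℤ → K)) = lam • L)
    (w : A → ℤ) : rho L (M.mulVec w) = lam * rho L w := by
  have h1 : rho L (M.mulVec w) = dotProduct (Matrix.vecMul L (M.map (Int.cast : ℤ → K)))
      (fun b => (w b : K)) := by
    simp only [rho, Matrix.mulVec, dotProduct, Matrix.vecMul, Matrix.map_apply, Int.cast_sum,
      Int.cast_mul, Finset.mul_sum, Finset.sum_mul]
    rw [Finset.sum_comm]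
    refine Finset.sum_congr rfl fun a _ => Finset.sum_congr rfl fun b _ => by ring
  rw [h1, hL]
  simp only [rho, dotProduct, Pi.smul_apply, smul_eq_mul, Finset.mul_sum]
  exact Finset.sum_congr rfl fun a _ => by ring

lemma rho_pow_mulVec [Fintype A] [DecidableEq A] {K : Type*} [CommRing K] (L : A → K) (lam : K)
    (M : Matrix A A ℤ) (hL : Matrix.vecMul L (M.map (Int.cast : ℤ → K)) = lam • L)
    (w : A → ℤ) (m : ℕ) : rho L ((M ^ m).mulVec w) = lam ^ m * rho L w := by
  induction m with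
  | zero => simp
  | succ m ih =>
    rw [pow_succ', ← Matrix.mulVec_mulVec, rho_mulVec L lam M hL, ih, pow_succ']
    ring

lemma rho_map [Fintype A] {K K' : Type*} [CommRing K] [CommRing K'] (φ : K →+* K') (L : A → K)
    (w : A → ℤ) : φ (rho L w) = rho (fun b => φ (L b)) w := by
  simp [rho]

lemma norm_rho_le [Fintype A] (L : A → ℂ) (E : ℝ) (hE : ∀ b, ‖L b‖ ≤ E) (w : A → ℤ) (S : ℤ)
    (hw : ∑ b, |w b| ≤ S) (hE0 : 0 ≤ E) : ‖rho L w‖ ≤ E * S := by
  calc ‖rho L w‖ ≤ ∑ b, ‖L b * (w b : ℂ)‖ := norm_sum_le _ _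
    _ ≤ ∑ b, E * |(w b : ℝ)| := by
        refine Finset.sum_le_sum fun b _ => ?_
        rw [norm_mul, Complex.norm_intCast]
        exact mul_le_mul_of_nonneg_right (hE b) (abs_nonneg _)
    _ = E * ((∑ b, |w b| : ℤ) : ℝ) := by
        rw [← Finset.mul_sum]
        push_cast
        rfl
    _ ≤ E * S := mul_le_mul_of_nonneg_left (by exact_mod_cast hw) hE0

/-- bound for vectors with digits, in an embedding where `lam` is contracting -/
lemma norm_rho_dig [Fintype A] (M : Matrix A A ℤ) (D : ℤ) (L : A → ℂ) (lam : ℂ)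
    (hL : Matrix.vecMul L (M.map (Int.cast : ℤ → ℂ)) = lam • L)
    (E : ℝ) (hE : ∀ b, ‖L b‖ ≤ E) (hE0 : 0 ≤ E) (hlam : ‖lam‖ < 1) (w : A → ℤ)
    (hw : Dig M D w) : ‖rho L w‖ ≤ E * D / (1 - ‖lam‖) := by
  have hpos : 0 < 1 - ‖lam‖ := by linarith
  have hl0 := norm_nonneg lam
  induction hw with
  | base v hv =>
    have hD : (0 : ℝ) ≤ D := by
      have : (0 : ℤ) ≤ D := (Finset.sum_nonneg fun b _ => abs_nonneg (v b)).trans hv
      exact_mod_cast this
    have h1 := norm_rho_le L E hE v D hv hE0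
    refine h1.trans ?_
    rw [le_div_iff₀ hpos]
    have : 0 ≤ E * D := mul_nonneg hE0 hD
    nlinarith
  | step v δ _ hδ ih =>
    rw [rho_add, rho_mulVec L lam M hL]
    have h1 := norm_rho_le L E hE δ D hδ hE0
    calc ‖lam * rho L v + rho L δ‖ ≤ ‖lam‖ * ‖rho L v‖ + ‖rho L δ‖ := by
          refine (norm_add_le _ _).trans ?_
          rw [norm_mul]
      _ ≤ ‖lam‖ * (E * D / (1 - ‖lam‖)) + E * D :=
          add_le_add (mul_le_mul_of_nonneg_left ih hl0) h1
      _ = E * D / (1 - ‖lam‖) := by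
          field_simp
          ring

theorem sparse [Fintype A] [DecidableEq A] [Nontrivial A] (M : Matrix A A ℤ)
    (h0 : ∀ i j, 0 ≤ M i j) (k : ℕ) (hk : 1 ≤ k) (hpos : ∀ i j, 0 < (M ^ k) i j)
    (D B : ℤ) :
    ∃ m0 : ℕ, ∀ m, m0 ≤ m → ∀ v v' : A → ℤ, Dig M D v → Dig M D v' →
      ∀ y : A → ℤ, (∀ b, 0 ≤ y b) → y ≠ 0 → ∑ b, y b ≤ B →
        (M ^ m).mulVec (v' - v) ≠ y := by
  obtain ⟨lam, u, hlam, hu, heig, hsimple⟩ := pf_left M h0 k hk hpos
  have hu0 : u ≠ 0 := by
    obtain ⟨a⟩ := (inferInstance : Nonempty A)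
    exact fun h => (hu a).ne' (congrFun h a)
  have hint : IsIntegral ℤ lam := sparse_integral M lam u hu0 heig
  have hintQ : IsIntegral ℚ lam := hint.tower_top
  set K := ℚ⟮lam⟯ with hK
  have hfd : FiniteDimensional ℚ K := IntermediateField.adjoin.finiteDimensional hintQ
  have : NumberField K := { to_charZero := inferInstance, to_finiteDimensional := hfd }
  set l : K := ⟨lam, IntermediateField.mem_adjoin_simple_self ℚ lam⟩ with hl
  set ι : K →+* ℝ := algebraMap K ℝ with hι
  have hιl : ι l = lam := rfl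
  -- left eigenvector over `K`
  have hdet : (Matrix.scalar A l - M.map (Int.cast : ℤ → K)).det = 0 := by
    apply ι.injective
    rw [RingHom.map_det, map_zero]
    apply Matrix.exists_vecMul_eq_zero_iff.1
    refine ⟨u, hu0, ?_⟩
    have h1 : ι.mapMatrix (Matrix.scalar A l - M.map (Int.cast : ℤ → K)) =
        Matrix.scalar A lam - M.map (Int.cast : ℤ → ℝ) := by
      rw [map_sub]
      congr 1
      ext i j
      by_cases hij : i = j
      · subst hij; simp [hιl]
      · simp [hij]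
    rw [h1, Matrix.vecMul_sub, Matrix.scalar_apply, ← Matrix.smul_one_eq_diagonal,
      Matrix.vecMul_smul, Matrix.vecMul_one]
    exact sub_eq_zero.2 heig.symm
  obtain ⟨L0, hL00, hL0⟩ := Matrix.exists_vecMul_eq_zero_iff.2 hdet
  rw [Matrix.vecMul_sub, Matrix.scalar_apply, ← Matrix.smul_one_eq_diagonal,
      Matrix.vecMul_smul, Matrix.vecMul_one, sub_eq_zero] at hL0
  obtain ⟨d, hd0, hd⟩ := exists_integral_multiples ℤ ℚ (L := K) (Finset.univ.image L0)
  set L : A → K := fun b => d • L0 b with hLdef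
  have hLint : ∀ b, IsIntegral ℤ (L b) := fun b =>
    hd _ (Finset.mem_image_of_mem L0 (Finset.mem_univ b))
  have hLs : L = (d : K) • L0 := by
    funext b
    simp [hLdef]
  have hLne : L ≠ 0 := by
    obtain ⟨b, hb⟩ := Function.ne_iff.1 hL00
    intro h
    have h2 := congrFun h b
    rw [hLs] at h2
    simp only [Pi.smul_apply, smul_eq_mul, Pi.zero_apply, mul_eq_zero, Int.cast_eq_zero] at h2
    rcases h2 with h2 | h2
    · exact hd0 h2
    · exact hb h2
  have hLeig : Matrix.vecMul L (M.map (Int.cast : ℤ → K)) = l • L := by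
    rw [hLs, Matrix.smul_vecMul, ← hL0, smul_comm]
  -- the real image is a nonzero multiple of `u`
  have heigφ : ∀ {F : Type} [Field F] (φ : K →+* F),
      Matrix.vecMul (fun b => φ (L b)) (M.map (Int.cast : ℤ → F)) = φ l • fun b => φ (L b) := by
    intro F _ φ
    funext a
    have h3 := congrArg φ (congrFun hLeig a)
    simp only [Matrix.vecMul, dotProduct, Matrix.map_apply, map_sum, map_mul, map_intCast,
      Pi.smul_apply, smul_eq_mul] at h3 ⊢
    exact h3
  obtain ⟨c, hc⟩ := hsimple (fun b => ι (L b)) (heigφ ι)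
  have hc0 : c ≠ 0 := by
    rintro rfl
    obtain ⟨b, hb⟩ := Function.ne_iff.1 hLne
    have h4 := congrFun hc b
    simp only [zero_smul, Pi.zero_apply, map_eq_zero] at h4
    exact hb h4
  have hrho : ∀ y : A → ℤ, (∀ b, 0 ≤ y b) → y ≠ 0 → rho L y ≠ 0 := by
    intro y hy0 hy h5
    have h6 := congrArg ι h5
    rw [rho_map, hc, map_zero] at h6
    simp only [rho, Pi.smul_apply, smul_eq_mul, mul_assoc, ← Finset.mul_sum, mul_eq_zero] at h6
    rcases h6 with h6 | h6
    · exact hc0 h6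
    · obtain ⟨b, hb⟩ := Function.ne_iff.1 hy
      have hb' : 0 < y b := lt_of_le_of_ne (hy0 b) (Ne.symm hb)
      have h7 : 0 < ∑ b, u b * (y b : ℝ) :=
        Finset.sum_pos' (fun c _ => mul_nonneg (hu c).le (by exact_mod_cast hy0 c))
          ⟨b, Finset.mem_univ b, mul_pos (hu b) (by exact_mod_cast hb')⟩
      linarith
  -- bounds
  set E : ℝ := ∑ φ : K →+* ℂ, ∑ b, ‖φ (L b)‖ with hE
  have hE0 : 0 ≤ E := Finset.sum_nonneg fun φ _ => Finset.sum_nonneg fun b _ => norm_nonneg _
  have hEb : ∀ (φ : K →+* ℂ) (b : A), ‖φ (L b)‖ ≤ E := by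
    intro φ b
    calc ‖φ (L b)‖ ≤ ∑ b, ‖φ (L b)‖ :=
          Finset.single_le_sum (f := fun b => ‖φ (L b)‖) (fun b _ => norm_nonneg _)
            (Finset.mem_univ b)
      _ ≤ E := Finset.single_le_sum (f := fun φ : K →+* ℂ => ∑ b, ‖φ (L b)‖)
            (fun φ _ => Finset.sum_nonneg fun b _ => norm_nonneg _) (Finset.mem_univ φ)
  set R : ℝ := E * |(B : ℝ)| + ∑ φ : K →+* ℂ, 2 * |E * D / (1 - ‖φ l‖)| with hR
  have hRφ : ∀ φ : K →+* ℂ, 2 * |E * D / (1 - ‖φ l‖)| ≤ R := by
    intro φ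
    have h8 : 2 * |E * D / (1 - ‖φ l‖)| ≤ ∑ φ : K →+* ℂ, 2 * |E * D / (1 - ‖φ l‖)| :=
      Finset.single_le_sum (f := fun φ : K →+* ℂ => 2 * |E * D / (1 - ‖φ l‖)|)
        (fun φ _ => by positivity) (Finset.mem_univ φ)
    have h9 : 0 ≤ E * |(B : ℝ)| := by positivity
    linarith
  have hRB : E * |(B : ℝ)| ≤ R := by
    have h10 : 0 ≤ ∑ φ : K →+* ℂ, 2 * |E * D / (1 - ‖φ l‖)| :=
      Finset.sum_nonneg fun φ _ => by positivity
    linarith
  have hfin := NumberField.Embeddings.finite_of_norm_le K ℂ R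
  refine ⟨hfin.toFinset.card, fun m hm v v' hv hv' y hy0 hy hyB heq => ?_⟩
  set x : ℕ → K := fun i => l ^ i * rho L (v' - v) with hx
  have hxm : x m = rho L y := by
    rw [hx]
    simp only
    rw [← rho_pow_mulVec L l M hLeig, heq]
  have hd0' : rho L (v' - v) ≠ 0 := by
    intro h11
    apply hrho y hy0 hy
    rw [← hxm, hx]
    simp only
    rw [h11, mul_zero]
  have hlint : IsIntegral ℤ l := by
    have h12 : IsIntegral ℤ (ι l) := hint
    exact (isIntegral_algHom_iff (ι.toIntAlgHom) ι.injective).1 h12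
  have hmem : ∀ i ≤ m, x i ∈ hfin.toFinset := by
    intro i hi
    rw [Set.Finite.mem_toFinset]
    refine ⟨?_, fun φ => ?_⟩
    · refine (hlint.pow i).mul ?_
      unfold rho
      exact IsIntegral.sum _ fun b _ => (hLint b).mul (isIntegral_algebraMap (R := ℤ) (x := (v' - v) b))
    · rcases lt_or_ge ‖φ l‖ 1 with h13 | h13
      · have h14 := norm_rho_dig M D (fun b => φ (L b)) (φ l) (heigφ φ) E (hEb φ) hE0 h13 v hv
        have h15 := norm_rho_dig M D (fun b => φ (L b)) (φ l) (heigφ φ) E (hEb φ) hE0 h13 v' hv'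
        calc ‖φ (x i)‖ = ‖φ l‖ ^ i * ‖φ (rho L (v' - v))‖ := by
              rw [hx]; simp only [map_mul, map_pow, norm_mul, norm_pow]
          _ ≤ 1 * ‖φ (rho L (v' - v))‖ :=
              mul_le_mul_of_nonneg_right (pow_le_one₀ (norm_nonneg _) h13.le) (norm_nonneg _)
          _ = ‖rho (fun b => φ (L b)) v' - rho (fun b => φ (L b)) v‖ := by
              rw [one_mul, rho_map, rho_sub]
          _ ≤ ‖rho (fun b => φ (L b)) v'‖ + ‖rho (fun b => φ (L b)) v‖ := norm_sub_le _ _
          _ ≤ 2 * |E * D / (1 - ‖φ l‖)| := by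
              have := le_abs_self (E * D / (1 - ‖φ l‖))
              linarith
          _ ≤ R := hRφ φ
      · calc ‖φ (x i)‖ = ‖φ l‖ ^ i * ‖φ (rho L (v' - v))‖ := by
              rw [hx]; simp only [map_mul, map_pow, norm_mul, norm_pow]
          _ ≤ ‖φ l‖ ^ m * ‖φ (rho L (v' - v))‖ :=
              mul_le_mul_of_nonneg_right (pow_le_pow_right₀ h13 hi) (norm_nonneg _)
          _ = ‖φ (x m)‖ := by
              rw [hx]; simp only [map_mul, map_pow, norm_mul, norm_pow]
          _ = ‖rho (fun b => φ (L b)) y‖ := by rw [hxm, rho_map]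
          _ ≤ E * B := norm_rho_le _ E (hEb φ) y B (by
              have : ∑ b, |y b| = ∑ b, y b := Finset.sum_congr rfl fun b _ => abs_of_nonneg (hy0 b)
              rw [this]; exact hyB) hE0
          _ ≤ E * |(B : ℝ)| := mul_le_mul_of_nonneg_left (le_abs_self _) hE0
          _ ≤ R := hRB
  have hinj : Set.InjOn x (Finset.range (m + 1)) := by
    intro i _ j _ hij
    have h16 : l ^ i = l ^ j := mul_right_cancel₀ hd0' hij
    have h17 := congrArg ι h16
    rw [map_pow, map_pow, hιl] at h17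
    exact (pow_right_injective₀ (by linarith) hlam.ne') h17
  have hcard := Finset.card_le_card_of_injOn x (fun i hi => hmem i (by
    rw [Finset.mem_coe, Finset.mem_range] at hi; omega)) hinj
  rw [Finset.card_range] at hcard
  omega

end Pool.Agent.H.MP_144feb_an
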