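import Pool.Agent.H.MP_144feb_an.Inter
import Pool.Agent.H.MP_144feb_an.Sparse

/-!
# The two inputs of Ryan's theorem for random substitutions
-/

namespace Pool.Agent.H.MP_144feb_an

variable {A : Type*} [Fintype A] [DecidableEq A]

theorem nontrivial_of_nonDegenerate {θ : A → Set (List A)} (hc : Compatible θ)
    (hn : NonDegenerate θ) : Nontrivial A := by
  obtain ⟨a, v, hv, v', hv', hne⟩ := hn
  by_contra hcon
  rw [not_nontrivial_iff_subsingleton] at hcon
  apply hne
  have hlen : v.length = v'.length := by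
    rw [← sum_ab, ← sum_ab]
    exact Finset.sum_congr rfl fun b _ => hc a v hv v' hv' b
  apply List.ext_getElem hlen
  intro i _ _
  exact Subsingleton.elim _ _

theorem exists_good {θ : A → Set (List A)} (hθ : IsRandomSubstitution θ) (hp : Primitive θ) :
    ∃ M k0, Good θ M k0 := by
  obtain ⟨_, M, hM, k, hk, hpos⟩ := hp
  exact ⟨M, k, hθ, hM, hk, hpos⟩

theorem legal_concat (θ : A → Set (List A))
    (hθ : IsRandomSubstitution θ) (hp : Primitive θ) (hn : NonDegenerate θ) :
    Concat (Legal θ) := by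
  have := nontrivial_of_nonDegenerate hp.1 hn
  obtain ⟨M, k0, h⟩ := exists_good hθ hp
  exact h.concat

theorem exists_inter (θ : A → Set (List A))
    (hθ : IsRandomSubstitution θ) (hp : Primitive θ) (hn : NonDegenerate θ) :
    ∃ V V' : List A, V ≠ V' ∧ V.length = V'.length ∧ Legal θ V ∧ Inter (Legal θ) V V' := by
  have := nontrivial_of_nonDegenerate hp.1 hn
  obtain ⟨M, k0, h⟩ := exists_good hθ hp
  apply h.exists_inter_of_sparse hn
  intro D B
  have hpow : ∀ n : ℕ, (M.map (Nat.cast : ℕ → ℤ)) ^ n = (M ^ n).map (Nat.cast : ℕ → ℤ) :=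
    fun n => (Matrix.map_pow (f := Nat.castRingHom ℤ) M n).symm
  apply sparse (M.map (Nat.cast : ℕ → ℤ)) _ k0 h.one_le _ D B
  · intro i j
    simp
  · intro i j
    rw [hpow, Matrix.map_apply]
    exact_mod_cast h.pos i j

end Pool.Agent.H.MP_144feb_an
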