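import Pool.Agent.H.MP_144feb_an.Cuts
import Pool.Agent.H.MP_144feb_an.Digits

/-!
# Interchangeable words from forced cuts and the pigeonhole principle
-/

namespace Pool.Agent.H.MP_144feb_an

variable {A : Type*} [Fintype A] [DecidableEq A]
variable {θ : A → Set (List A)} {M : Matrix A A ℕ} {k0 : ℕ}

theorem Good.exists_between [Nontrivial A] (h : Good θ M k0) (g : List A) (hg : Legal θ g)
    (a : A) (N : ℕ) : ∃ z z', Legal θ (g ++ (z ++ ([a] ++ z'))) ∧ N ≤ z'.length := by
  obtain ⟨C, hC⟩ := h.concat ({g, [a]} : Set (List A)) (Set.toFinite _) (by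
    intro x hx
    rcases hx with rfl | hx
    · exact hg
    · rw [Set.mem_singleton_iff] at hx
      rw [hx]
      exact h.legal_singleton a)
  obtain ⟨Bs, hBs, hL⟩ := hC (g :: [a] :: List.replicate N [a]) (by
    intro x hx
    simp only [List.mem_cons, List.mem_replicate] at hx
    rcases hx with rfl | rfl | ⟨_, rfl⟩
    · exact Or.inl rfl
    · exact Or.inr rfl
    · exact Or.inr rfl)
  rcases hBs with _ | ⟨⟨⟨s0, t0, hb0⟩, hl0⟩, hBs'⟩
  rename_i b0 Bs'
  rcases hBs' with _ | ⟨⟨⟨s1, t1, hb1⟩, hl1⟩, hBs''⟩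
  rename_i b1 Bs''
  refine ⟨t0 ++ s1, t1 ++ Bs''.flatten, legal_infix hL ⟨s0, [], ?_⟩, ?_⟩
  · rw [List.flatten_cons, List.flatten_cons, ← hb0, ← hb1]
    simp
  · have key : ∀ (Bs : List (List A)) (N : ℕ),
        List.Forall₂ (fun b g => g <:+: b ∧ b.length ≤ C) Bs (List.replicate N [a]) →
        N ≤ Bs.flatten.length := by
      intro Bs
      induction Bs with
      | nil =>
        intro N hN
        cases N with
        | zero => exact Nat.zero_le _
        | succ N => rw [List.replicate_succ] at hN; cases hN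
      | cons b Bs ih =>
        intro N hN
        cases N with
        | zero => exact Nat.zero_le _
        | succ N =>
          rw [List.replicate_succ] at hN
          rcases hN with _ | ⟨⟨hb, _⟩, hN'⟩
          have h1 := ih N hN'
          have h2 := hb.length_le
          simp only [List.length_singleton] at h2
          rw [List.flatten_cons, List.length_append]
          omega
    have := key Bs'' N hBs''
    rw [List.length_append]
    omega

/-- Cardinality of separated sets. -/
theorem sep_card (O : Finset ℕ) (a L B : ℕ) (hB : 0 < B)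
    (hO : ∀ p ∈ O, a ≤ p + L ∧ p ≤ a)
    (hsep : ∀ p ∈ O, ∀ p' ∈ O, p < p' → p + B < p') : O.card * B ≤ L + B := by
  have h1 : O.card ≤ (Finset.range (L / B + 1)).card := by
    apply Finset.card_le_card_of_injOn (fun p => (p + L - a) / B)
    · intro p hp
      have := hO p hp
      rw [Finset.coe_range, Set.mem_Iio]
      apply Nat.lt_succ_of_le
      apply Nat.div_le_div_right
      omega
    · have key : ∀ p ∈ O, ∀ p' ∈ O, p < p' → (p + L - a) / B < (p' + L - a) / B := by
        intro p hp p' hp' hlt
        have h1 := hsep p hp p' hp' hlt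
        have h2 := hO p hp
        have h3 : (p + L - a) / B + 1 ≤ (p' + L - a) / B := by
          rw [← Nat.add_div_right _ hB]
          apply Nat.div_le_div_right
          omega
        omega
      intro p hp p' hp' heq
      rcases lt_trichotomy p p' with hlt | rfl | hlt
      · have := key p hp p' hp' hlt
        simp only at heq
        omega
      · rfl
      · have := key p' hp' p hp hlt
        simp only at heq
        omega
  rw [Finset.card_range] at h1
  calc O.card * B ≤ (L / B + 1) * B := Nat.mul_le_mul_right _ h1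
    _ = L / B * B + B := by ring
    _ ≤ L + B := by
      have := Nat.div_mul_le_self L B
      omega

/-- Exchange of `w` and `w'`, half of the interchangeability. -/
theorem Good.half (h : Good θ M k0) (m κ : ℕ)
    (hκ : ∀ a b, len M m a ≤ κ * len M m b)
    (Q : List A) (c : ℕ)
    (hcut : ∀ l r, Legal θ (l ++ Q ++ r) →
      ∃ γ1 γ2 W1 W2, Legal θ (γ1 ++ γ2) ∧ W1 ∈ iter θ m γ1 ∧ W2 ∈ iter θ m γ2 ∧
        (l ++ Q.take c) <:+ W1 ∧ (Q.drop c ++ r) <+: W2)
    (Z Z' w w' : List A) (a : A) (hZ' : lmax M m ≤ Z'.length)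
    (hw : w ∈ iter θ m [a]) (hw' : w' ∈ iter θ m [a])
    (hD : ∀ p β, p ≤ (Q.drop c ++ Z).length → (Q.drop c ++ Z).length ≤ p + lmax M m →
      (∃ γ1, Legal θ γ1 ∧ (Q.drop c ++ Z).take p ∈ iter θ m γ1) → β.length ≤ 3 * κ →
      (∃ k, (Q.drop c ++ Z).drop p ++ w ++ Z'.take k ∈ iter θ m β) →
      (∃ k, (Q.drop c ++ Z).drop p ++ w' ++ Z'.take k ∈ iter θ m β))
    (l r : List A) (hleg : Legal θ (l ++ (Q ++ Z ++ w ++ Z') ++ r)) :
    Legal θ (l ++ (Q ++ Z ++ w' ++ Z') ++ r) := by
  obtain ⟨γ1, γ2, W1, W2, hγ, hW1, hW2, ⟨s1, hs1⟩, ⟨t, ht⟩⟩ := hcut l (Z ++ w ++ Z' ++ r) (by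
    have e : l ++ (Q ++ Z ++ w ++ Z') ++ r = l ++ Q ++ (Z ++ w ++ Z' ++ r) := by simp
    rw [← e]
    exact hleg)
  generalize hR0 : Q.drop c ++ Z = R0 at hD
  have eW2 : W2 = R0 ++ (w ++ (Z' ++ (r ++ t))) := by
    rw [← ht, ← hR0]
    simp
  have hlen1 : R0.length ≤ W2.length := by
    rw [eW2, List.length_append]
    omega
  obtain ⟨β1, β2, U1, U2, e1, e2, hU1, hU2, hl1, hl2⟩ := split_le h.mat m γ2 W2 _ hW2 hlen1
  have eR0 : R0 = R0.take U1.length ++ R0.drop U1.length := (List.take_append_drop _ _).symm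
  have hsplit : U1 = R0.take U1.length ∧ U2 = R0.drop U1.length ++ (w ++ (Z' ++ (r ++ t))) := by
    apply List.append_inj
    · rw [← List.append_assoc, ← eR0, ← eW2, e2]
    · rw [List.length_take]
      omega
  obtain ⟨hU1', hU2'⟩ := hsplit
  generalize hp : U1.length = p at *
  generalize hR' : R0.drop p = R' at *
  have hR'l : R'.length = R0.length - p := by rw [← hR', List.length_drop]
  have hlen2 : R'.length + w.length ≤ U2.length := by
    rw [hU2', List.length_append, List.length_append]
    omega
  obtain ⟨β, β3, U3, U4, e3, e4, hU3, hU4, hl3, hl4⟩ := split_ge h.mat m β2 U2 _ hU2 hlen2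
  obtain ⟨k, hk⟩ : ∃ k, U3.length = R'.length + w.length + k :=
    ⟨U3.length - (R'.length + w.length), by omega⟩
  have hkZ : k ≤ Z'.length := by omega
  have hsplit2 : U3 = R' ++ (w ++ Z'.take k) ∧ U4 = Z'.drop k ++ (r ++ t) := by
    apply List.append_inj
    · rw [← e4, hU2']
      conv_lhs => rw [← List.take_append_drop k Z']
      simp only [List.append_assoc]
    · rw [hk, List.length_append, List.length_append, List.length_take]
      omega
  obtain ⟨hU3', hU4'⟩ := hsplit2
  have hwl : w.length = len M m a := length_iter_singleton h.mat m a w hw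
  have hwl' : w'.length = len M m a := length_iter_singleton h.mat m a w' hw'
  have hla := len_le_lmax M m a
  have hβl : β.length ≤ 3 * κ := by
    have h1 : β.length * lmax M m ≤ κ * U3.length := by
      rw [length_iter h.mat m β U3 hU3]
      clear hU3 e3
      induction β with
      | nil => simp
      | cons b β ih =>
        have : Nonempty A := ⟨a⟩
        obtain ⟨x, hx⟩ := exists_len_eq_lmax M m
        have h2 := hκ x b
        rw [hx] at h2
        simp only [List.length_cons, List.map_cons, List.sum_cons]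
        calc (β.length + 1) * lmax M m = β.length * lmax M m + lmax M m := by ring
          _ ≤ κ * (β.map (len M m)).sum + κ * len M m b := Nat.add_le_add ih h2
          _ = κ * (len M m b + (β.map (len M m)).sum) := by ring
    have h2 : U3.length ≤ 3 * lmax M m := by omega
    have h3 : β.length * lmax M m ≤ (3 * κ) * lmax M m :=
      h1.trans ((Nat.mul_le_mul_left κ h2).trans (by
        rw [show κ * (3 * lmax M m) = 3 * κ * lmax M m by ring]))
    have h4 : 0 < lmax M m := lt_of_lt_of_le (h.len_pos m a) hla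
    exact Nat.le_of_mul_le_mul_right h3 h4
  have hβ1 : Legal θ β1 := by
    refine legal_infix hγ ⟨γ1, β2, ?_⟩
    rw [e1, List.append_assoc]
  obtain ⟨k', hk'⟩ := hD p β hl1 (by omega) ⟨β1, hβ1, by rw [← hU1']; exact hU1⟩ hβl
    ⟨k, by rw [hR', List.append_assoc, ← hU3']; exact hU3⟩
  have htake : Z'.take k' = Z'.take k := by
    have h1 := length_iter h.mat m β _ hk'
    have h2 := length_iter h.mat m β _ hU3
    rw [← h2, hR', List.length_append, List.length_append, hU3', List.length_append,
      List.length_append, hwl, hwl'] at h1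
    have h3 : (Z'.take k').length = (Z'.take k).length := by omega
    exact (List.prefix_of_prefix_length_le (List.take_prefix _ _) (List.take_prefix _ _)
      h3.le).eq_of_length h3
  rw [htake, hR'] at hk'
  have hfin : W1 ++ (U1 ++ ((R' ++ w' ++ Z'.take k) ++ U4)) ∈ iter θ m (γ1 ++ γ2) := by
    rw [mem_iter_append]
    refine ⟨W1, hW1, _, ?_, rfl⟩
    rw [e1, mem_iter_append]
    refine ⟨U1, hU1, _, ?_, rfl⟩
    rw [e3, mem_iter_append]
    exact ⟨_, hk', U4, hU4, rfl⟩
  refine legal_infix (legal_iter h.rs hγ m hfin) ⟨s1, t, ?_⟩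
  have e5 : U1 ++ ((R' ++ w' ++ Z'.take k) ++ U4) = Q.drop c ++ Z ++ (w' ++ (Z' ++ (r ++ t))) := by
    rw [hR0]
    conv_rhs => rw [eR0, ← hU1', ← List.take_append_drop k Z']
    rw [hU4']
    simp only [List.append_assoc]
  rw [e5, ← hs1]
  conv_lhs => rw [← List.take_append_drop c Q]
  simp only [List.append_assoc]

end Pool.Agent.H.MP_144feb_an
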