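import Pool.Agent.H.MP_144feb_an.Swap
import Pool.Agent.H.MP_144feb_an.Choice

/-!
# Ryan's theorem for subshifts with interchangeable words
-/

namespace Pool.Agent.H.MP_144feb_an

variable {A : Type*}

/-! ### Translations -/

/-- translation by `c` -/
def tr {L : List A → Prop} (c : ℤ) (x : X L) : X L := ⟨fun i => x.1 (i + c), shift_mem x.2 c⟩

theorem tr_apply {L : List A → Prop} (c : ℤ) (x : X L) (i : ℤ) : (tr c x).1 i = x.1 (i + c) := rfl

theorem tr_zero {L : List A → Prop} (x : X L) : tr 0 x = x := by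
  apply Subtype.ext
  funext i
  rw [tr_apply, add_zero]

theorem shift_tr [TopologicalSpace A] {L : List A → Prop} (c : ℤ) (x : X L) :
    shiftHomeo L (tr c x) = tr (c + 1) x := by
  apply Subtype.ext
  funext i
  show x.1 (i + 1 + c) = x.1 (i + (c + 1))
  rw [show i + 1 + c = i + (c + 1) by ring]

theorem aut_shift [TopologicalSpace A] {L : List A → Prop} (h : Aut L) (x : X L) :
    h.1 (shiftHomeo L x) = shiftHomeo L (h.1 x) := h.2 x

theorem aut_tr [TopologicalSpace A] {L : List A → Prop} (h : Aut L) (c : ℤ) (x : X L) :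
    h.1 (tr c x) = tr c (h.1 x) := by
  induction c using Int.induction_on with
  | zero => rw [tr_zero, tr_zero]
  | succ n ih => rw [← shift_tr, ← shift_tr, aut_shift, ih]
  | pred n ih =>
    apply (shiftHomeo L).injective
    rw [← aut_shift, shift_tr, shift_tr, sub_add_cancel, ih]

theorem shiftAut_mul [TopologicalSpace A] {L : List A → Prop} (f : Aut L) (x : X L) :
    (shiftAut L * f).1 x = shiftHomeo L (f.1 x) := rfl

theorem shiftAut_zpow [TopologicalSpace A] {L : List A → Prop} (c : ℤ) (x : X L) :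
    (shiftAut L ^ c).1 x = tr c x := by
  induction c using Int.induction_on with
  | zero => rw [tr_zero, zpow_zero]; rfl
  | succ n ih =>
    rw [add_comm, zpow_one_add, shiftAut_mul, ih, shift_tr, add_comm]
  | pred n ih =>
    apply (shiftHomeo L).injective
    rw [← shiftAut_mul, ← zpow_one_add, shift_tr, sub_add_cancel, ← ih]
    congr 3
    ring

/-! ### Continuity and the sliding block code -/

theorem isClosed_X [TopologicalSpace A] [DiscreteTopology A] (L : List A → Prop) :
    IsClosed (X L) := by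
  have h : X L = ⋂ (i : ℤ) (n : ℕ), {x | L (win x i n)} := by
    ext x
    simp [X]
  rw [h]
  refine isClosed_iInter fun i => isClosed_iInter fun n => ?_
  have hc : Continuous (fun (x : ℤ → A) (j : Fin n) => x (i + ((j : ℕ) : ℤ))) :=
    continuous_pi fun j => continuous_apply _
  have he : {x : ℤ → A | L (win x i n)} =
      (fun (x : ℤ → A) (j : Fin n) => x (i + ((j : ℕ) : ℤ))) ⁻¹'
        {f : Fin n → A | L (List.ofFn f)} := by
    ext x
    simp only [Set.mem_ofPred_eq, Set.mem_preimage]
    rw [show win x i n = List.ofFn (fun j : Fin n => x (i + ((j : ℕ) : ℤ))) from ?_]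
    apply List.ext_getElem
    · simp [win]
    · intro k h1 h2
      simp [win]
  rw [he]
  exact (isClosed_discrete _).preimage hc

theorem chl_zero [Finite A] [TopologicalSpace A] [DiscreteTopology A] (L : List A → Prop)
    (h : Aut L) : ∃ r : ℕ, ∀ (x y : X L),
      (∀ j : ℤ, - (r : ℤ) ≤ j → j ≤ r → x.1 j = y.1 j) → (h.1 x).1 0 = (h.1 y).1 0 := by
  have : CompactSpace (X L) := isCompact_iff_compactSpace.mp (isClosed_X L).isCompact
  let U : ℕ → Set (X L) := fun r => {x | ∀ y : X L,
    (∀ j : ℤ, - (r : ℤ) ≤ j → j ≤ r → x.1 j = y.1 j) → (h.1 x).1 0 = (h.1 y).1 0}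
  have hU : ∀ r, IsOpen (U r) := by
    intro r
    rw [isOpen_iff_forall_mem_open]
    intro x hx
    refine ⟨⋂ j ∈ Finset.Icc (-(r : ℤ)) r, {y : X L | y.1 j = x.1 j}, ?_, ?_, ?_⟩
    · intro y hy z hz
      simp only [Set.mem_iInter, Set.mem_ofPred_eq, Finset.mem_Icc] at hy
      rw [← hx z, ← hx y]
      · intro j h1 h2
        exact (hy j ⟨h1, h2⟩).symm
      · intro j h1 h2
        rw [← hy j ⟨h1, h2⟩]
        exact hz j h1 h2
    · apply isOpen_biInter_finset
      intro j _
      have hc : Continuous (fun y : X L => y.1 j) :=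
        (continuous_apply j).comp continuous_subtype_val
      exact (isOpen_discrete {x.1 j}).preimage hc
    · simp
  have hcov : (Set.univ : Set (X L)) ⊆ ⋃ r, U r := by
    intro x _
    have hf : Continuous (fun y : X L => (h.1 y).1 0) :=
      ((continuous_apply (0 : ℤ)).comp continuous_subtype_val).comp h.1.continuous
    have ho : IsOpen ((fun y : X L => (h.1 y).1 0) ⁻¹' {(h.1 x).1 0}) :=
      (isOpen_discrete _).preimage hf
    rw [isOpen_induced_iff] at ho
    obtain ⟨W, hW, hWe⟩ := ho
    have hxW : x.1 ∈ W := by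
      have : x ∈ Subtype.val ⁻¹' W := by
        rw [hWe]
        rfl
      exact this
    rw [isOpen_pi_iff] at hW
    obtain ⟨I, u, hu, hsub⟩ := hW x.1 hxW
    rw [Set.mem_iUnion]
    refine ⟨I.sup Int.natAbs, ?_⟩
    intro y hy
    have hyW : y.1 ∈ W := by
      apply hsub
      intro j hj
      have hj' : j.natAbs ≤ I.sup Int.natAbs := Finset.le_sup (f := Int.natAbs) hj
      rw [← hy j (by omega) (by omega)]
      exact (hu j hj).2
    have : y ∈ Subtype.val ⁻¹' W := hyW
    rw [hWe] at this
    exact this.symm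
  have hdir : Directed (· ⊆ ·) U := by
    apply Monotone.directed_le
    intro m n hmn x hx y hy
    apply hx y
    intro j h1 h2
    apply hy j <;> omega
  obtain ⟨r, hr⟩ := isCompact_univ.elim_directed_cover U hU hcov hdir
  exact ⟨r, fun x y hxy => hr (Set.mem_univ x) y hxy⟩

theorem chl [Finite A] [TopologicalSpace A] [DiscreteTopology A] (L : List A → Prop)
    (h : Aut L) : ∃ r : ℕ, ∀ (x y : X L) (i : ℤ),
      (∀ j : ℤ, i - r ≤ j → j ≤ i + r → x.1 j = y.1 j) → (h.1 x).1 i = (h.1 y).1 i := by
  obtain ⟨r, hr⟩ := chl_zero L h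
  refine ⟨r, fun x y i hxy => ?_⟩
  have := hr (tr i x) (tr i y) (fun j h1 h2 => by
    rw [tr_apply, tr_apply]
    exact hxy (j + i) (by omega) (by omega))
  rw [aut_tr, aut_tr, tr_apply, tr_apply, zero_add] at this
  exact this

/-! ### Existence of points -/

theorem exists_ext (L : List A → Prop) (hfac : Factorial L) (hcat : Concat L)
    (hne : ∃ g, L g ∧ g ≠ []) (w : List A) (hw : L w) :
    ∃ a b : A, L (a :: (w ++ [b])) := by
  obtain ⟨g, hg, hgne⟩ := hne
  obtain ⟨C, hC⟩ := hcat {g, w} (by simp) (by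
    intro g' hg'
    simp only [Set.mem_insert_iff, Set.mem_singleton_iff] at hg'
    rcases hg' with rfl | rfl
    · exact hg
    · exact hw)
  obtain ⟨Bs, hBs, hL⟩ := hC [g, w, g] (by
    intro g' hg'
    simp only [List.mem_cons, List.not_mem_nil, or_false] at hg'
    simp only [Set.mem_insert_iff, Set.mem_singleton_iff]
    tauto)
  rw [List.forall₂_cons_right_iff] at hBs
  obtain ⟨b1, Bs1, ⟨h1, -⟩, hBs1, rfl⟩ := hBs
  rw [List.forall₂_cons_right_iff] at hBs1
  obtain ⟨b2, Bs2, ⟨h2, -⟩, hBs2, rfl⟩ := hBs1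
  rw [List.forall₂_cons_right_iff] at hBs2
  obtain ⟨b3, Bs3, ⟨h3, -⟩, hBs3, rfl⟩ := hBs2
  obtain ⟨s2, t2, rfl⟩ := h2
  have hb1 : b1 ≠ [] := by
    rintro rfl
    exact hgne (List.infix_nil.mp h1)
  have hb3 : b3 ≠ [] := by
    rintro rfl
    exact hgne (List.infix_nil.mp h3)
  have e1 : b1 ++ s2 ≠ [] := by simp [hb1]
  have e3 : t2 ++ b3 ≠ [] := by simp [hb3]
  obtain ⟨b, l3, hl3⟩ := List.exists_cons_of_ne_nil e3
  refine ⟨(b1 ++ s2).getLast e1, b, hfac _ _ hL ?_⟩
  refine ⟨(b1 ++ s2).dropLast, l3 ++ Bs3.flatten, ?_⟩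
  have := List.dropLast_append_getLast e1
  calc (b1 ++ s2).dropLast ++ ((b1 ++ s2).getLast e1 :: (w ++ [b])) ++ (l3 ++ Bs3.flatten)
      = ((b1 ++ s2).dropLast ++ [(b1 ++ s2).getLast e1]) ++ w ++ (b :: l3) ++ Bs3.flatten := by
        simp
    _ = (b1 ++ s2) ++ w ++ (t2 ++ b3) ++ Bs3.flatten := by rw [this, hl3]
    _ = (b1 :: (s2 ++ w ++ t2) :: b3 :: Bs3).flatten := by simp

theorem exists_point (L : List A → Prop) (hfac : Factorial L) (hcat : Concat L)
    (hne : ∃ g, L g ∧ g ≠ []) (w : List A) (hw : L w) :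
    ∃ x ∈ X L, win x 0 w.length = w := by
  have hA : Nonempty A := by
    obtain ⟨g, -, hg⟩ := hne
    cases g with
    | nil => exact absurd rfl hg
    | cons a _ => exact ⟨a⟩
  choose! fa fb hab using exists_ext L hfac hcat hne
  obtain ⟨W, hW0, hW1⟩ : ∃ W : ℕ → List A, W 0 = w ∧
      ∀ n, W (n + 1) = fa (W n) :: (W n ++ [fb (W n)]) :=
    ⟨fun n => Nat.rec w (fun _ u => fa u :: (u ++ [fb u])) n, rfl, fun _ => rfl⟩
  have hL : ∀ n, L (W n) := by
    intro n
    induction n with
    | zero => rw [hW0]; exact hw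
    | succ n ih => rw [hW1]; exact hab _ ih
  have hlen : ∀ n, (W n).length = w.length + 2 * n := by
    intro n
    induction n with
    | zero => rw [hW0]; rfl
    | succ n ih =>
      rw [hW1]
      simp only [List.length_cons, List.length_append, List.length_nil]
      omega
  have hstep : ∀ n m k, k < (W n).length → (W (n + m))[k + m]? = (W n)[k]? := by
    intro n m
    induction m with
    | zero => intro k _; rfl
    | succ m ih =>
      intro k hk
      rw [← ih k hk, ← add_assoc, ← add_assoc, hW1, List.getElem?_cons_succ,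
        List.getElem?_append_left]
      rw [hlen] at hk ⊢
      omega
  have hx : ∀ j : ℤ, ∃ a : A, (W (j.natAbs + 1))[(j + (j.natAbs + 1 : ℕ)).toNat]? = some a := by
    intro j
    have : (j + (j.natAbs + 1 : ℕ)).toNat < (W (j.natAbs + 1)).length := by
      rw [hlen]
      omega
    exact ⟨_, List.getElem?_eq_getElem this⟩
  choose x hx using hx
  have key : ∀ (n : ℕ) (j : ℤ), -(n : ℤ) ≤ j → j < w.length + n →
      (W n)[(j + n).toNat]? = some (x j) := by
    intro n j h1 h2
    rw [← hx j]
    rcases le_total n (j.natAbs + 1) with h | h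
    · obtain ⟨m, hm⟩ := Nat.exists_eq_add_of_le h
      rw [hm, ← hstep n m _ (by rw [hlen]; omega)]
      congr 1
      omega
    · obtain ⟨m, hm⟩ := Nat.exists_eq_add_of_le h
      conv_lhs => rw [hm]
      rw [← hstep (j.natAbs + 1) m _ (by rw [hlen]; omega)]
      congr 1
      omega
  have hwin : ∀ n : ℕ, win x (-(n : ℤ)) (w.length + 2 * n) = W n := by
    intro n
    apply List.ext_getElem?
    intro k
    by_cases hk : k < w.length + 2 * n
    · rw [win_getElem? _ _ _ _ hk, ← key n (-(n : ℤ) + k) (by omega) (by omega)]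
      congr 1
      omega
    · rw [List.getElem?_eq_none (by rw [win_length]; omega),
        List.getElem?_eq_none (by rw [hlen]; omega)]
  refine ⟨x, ?_, ?_⟩
  · intro i n
    refine hfac _ _ (hL (i.natAbs + n)) ?_
    rw [← hwin]
    exact win_infix _ _ _ _ _ (by omega) (by omega)
  · have := hwin 0
    rw [hW0] at this
    simpa using this

/-! ### The theorem -/

theorem ryan [Finite A] [TopologicalSpace A] [DiscreteTopology A] (L : List A → Prop)
    (hfac : Factorial L) (hcat : Concat L)
    (V V' : List A) (hVV : V ≠ V') (hlen : V.length = V'.length) (hV : L V)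
    (hint : Inter L V V') :
    Subgroup.center (Aut L) = Subgroup.zpowers (shiftAut L) := by
  apply le_antisymm
  · intro h hh
    rw [Subgroup.mem_center_iff] at hh
    obtain ⟨r1, hr1⟩ := chl L h
    obtain ⟨r2, hr2⟩ := chl L h⁻¹
    obtain ⟨r, hrr1, hrr2⟩ : ∃ r : ℕ, r1 ≤ r ∧ r2 ≤ r := ⟨max r1 r2, by omega, by omega⟩
    obtain ⟨P, S, hPVS, hS, hno1, hno2, huP⟩ :=
      exists_choice L hfac hcat V V' hVV hlen hV hint r
    obtain ⟨φ, hφ⟩ := exists_swap L hfac P V V' S hlen hint (by omega) hno1 hno2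
    have hVne : V ≠ [] := by
      rintro rfl
      exact hVV (List.length_eq_zero_iff.mp hlen.symm).symm
    obtain ⟨x0, hx0, hwx⟩ := exists_point L hfac hcat ⟨V, hV, hVne⟩ _ hPVS
    obtain ⟨x, hx⟩ : ∃ x : X L, x.1 = x0 := ⟨⟨x0, hx0⟩, rfl⟩
    rw [← hx] at hwx
    clear hx hx0 x0
    have h0 : (0 : ℤ) ∈ Occ P V V' S x.1 := by
      left
      have h1 := hwx
      simp only [List.length_append] at h1
      exact h1
    have hcomm : ∀ y : X L, φ.1 (h.1 y) = h.1 (φ.1 y) := by
      intro y
      have := hh φ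
      have h2 : (φ * h).1 y = (h * φ).1 y := by rw [this]
      exact h2
    -- the minimum of the difference set
    obtain ⟨d1, ⟨hd1, hd1'⟩, hdmin⟩ : ∃ d1 : ℕ, (d1 < V.length ∧ V[d1]? ≠ V'[d1]?) ∧
        ∀ d, d < V.length → V[d]? ≠ V'[d]? → d1 ≤ d := by
      classical
      have hex : ∃ d : ℕ, d < V.length ∧ V[d]? ≠ V'[d]? := by
        by_contra hcon
        push Not at hcon
        apply hVV
        apply List.ext_getElem?
        intro k
        by_cases hk : k < V.length
        · exact hcon k hk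
        · rw [List.getElem?_eq_none (by omega), List.getElem?_eq_none (by omega)]
      exact ⟨Nat.find hex, Nat.find_spec hex, fun d e1 e2 => Nat.find_min' hex ⟨e1, e2⟩⟩
    -- an element of the difference set of h x
    obtain ⟨q, hq1, hq2, hq3⟩ : ∃ q : ℤ, (P.length : ℤ) + d1 - r ≤ q ∧ q ≤ (P.length : ℤ) + d1 + r ∧
        (φ.1 (h.1 x)).1 q ≠ (h.1 x).1 q := by
      by_contra hcon
      push Not at hcon
      have h1 := hr2 (φ.1 (h.1 x)) (h.1 x) ((P.length : ℤ) + d1) (fun j e1 e2 =>
        hcon j (by omega) (by omega))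
      have e : ∀ y : X L, (h⁻¹).1 (h.1 y) = y := fun y => h.1.symm_apply_apply y
      rw [hcomm, e, e] at h1
      have h2 := (hφ x ((P.length : ℤ) + d1)).mpr ⟨0, h0, d1, hd1, hd1', by ring⟩
      exact h2 h1
    obtain ⟨i0, hi0, d, hd, hdd, hqd⟩ := (hφ (h.1 x) q).mp hq3
    have hdmin' := hdmin d hd hdd
    obtain ⟨z, hz1, hz2, hz3⟩ : ∃ z : ℤ, i0 + (P.length : ℤ) + d1 - r ≤ z ∧
        z ≤ i0 + (P.length : ℤ) + d1 + r ∧ (φ.1 x).1 z ≠ x.1 z := by
      by_contra hcon
      push Not at hcon
      have h1 := hr1 (φ.1 x) x (i0 + (P.length : ℤ) + d1) (fun j e1 e2 =>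
        hcon j (by omega) (by omega))
      have h2 := (hφ (h.1 x) (i0 + (P.length : ℤ) + d1)).mpr ⟨i0, hi0, d1, hd1, hd1', rfl⟩
      rw [hcomm] at h2
      exact h2 h1
    obtain ⟨i1, hi1, d', hd', hdd', hzd⟩ := (hφ x z).mp hz3
    have hdmin'' := hdmin d' hd' hdd'
    have hi1' : 0 ≤ i1 := by
      by_contra hneg
      push Not at hneg
      have := occ_spacing P V V' S hlen hno1 hno2 x.1 i1 0 hi1 h0 hneg
      omega
    have hi0r : -(r : ℤ) ≤ i0 := by omega
    have hi0r' : i0 ≤ (r : ℤ) := by omega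
    -- the local rule
    have hP0 : ∀ k : ℕ, k < P.length → P[k]? = some (x.1 k) := by
      intro k hk
      have h1 : (win x.1 0 (P ++ V ++ S).length)[k]? = (P ++ V ++ S)[k]? := by rw [hwx]
      rw [win_getElem? _ _ _ _ (by simp only [List.length_append]; omega), List.append_assoc,
        List.getElem?_append_left hk, zero_add] at h1
      exact h1.symm
    have hPi : ∀ k : ℕ, k < P.length → P[k]? = some ((h.1 x).1 (i0 + k)) := by
      intro k hk
      rcases hi0 with hi | hi
      · have h1 : (win (h.1 x).1 i0 (P.length + V.length + S.length))[k]? =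
            (P ++ V ++ S)[k]? := by rw [hi]
        rw [win_getElem? _ _ _ _ (by omega), List.append_assoc,
          List.getElem?_append_left hk] at h1
        exact h1.symm
      · have h1 : (win (h.1 x).1 i0 (P.length + V.length + S.length))[k]? =
            (P ++ V' ++ S)[k]? := by rw [hi]
        rw [win_getElem? _ _ _ _ (by omega), List.append_assoc,
          List.getElem?_append_left hk] at h1
        exact h1.symm
    have hloc : ∀ u : X L, (h.1 u).1 0 = u.1 (-i0) := by
      intro u
      obtain ⟨a, b, hab⟩ := huP (win u.1 (-(r : ℤ)) (2 * r + 1)) (u.2 _ _) (win_length _ _ _)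
      have hPa : ∀ t : ℕ, t < 2 * r + 1 → P[a.length + t]? = some (u.1 (-(r : ℤ) + t)) := by
        intro t ht
        rw [← hab, List.append_assoc, List.getElem?_append_right (by omega),
          Nat.add_sub_cancel_left, List.getElem?_append_left (by rw [win_length]; exact ht),
          win_getElem? _ _ _ _ ht]
      have hPl : a.length + (2 * r + 1) ≤ P.length := by
        rw [← hab]
        simp only [List.length_append, win_length]
        omega
      have h1 := hr1 (tr ((a.length : ℤ) + r) x) u 0 (fun j e1 e2 => by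
        rw [tr_apply]
        have e3 := hPa (j + r).toNat (by omega)
        rw [hP0 _ (by omega)] at e3
        have e4 := Option.some.inj e3
        rw [show j + ((a.length : ℤ) + r) = ((a.length + (j + r).toNat : ℕ) : ℤ) by omega, e4,
          show -(r : ℤ) + ((j + r).toNat : ℤ) = j by omega])
      rw [aut_tr, tr_apply, zero_add] at h1
      rw [← h1]
      have e3 := hPa ((r : ℤ) - i0).toNat (by omega)
      rw [hPi _ (by omega)] at e3
      have e4 := Option.some.inj e3
      rw [show (a.length : ℤ) + r = i0 + ((a.length + ((r : ℤ) - i0).toNat : ℕ) : ℤ) by omega, e4,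
        show -(r : ℤ) + (((r : ℤ) - i0).toNat : ℤ) = -i0 by omega]
    rw [Subgroup.mem_zpowers_iff]
    refine ⟨-i0, ?_⟩
    apply Subtype.ext
    apply Homeomorph.ext
    intro u
    rw [shiftAut_zpow]
    apply Subtype.ext
    funext j
    have := hloc (tr j u)
    rw [aut_tr, tr_apply, tr_apply, zero_add] at this
    rw [tr_apply, this, add_comm]
  · rw [Subgroup.zpowers_le, Subgroup.mem_center_iff]
    intro g
    apply Subtype.ext
    apply Homeomorph.ext
    intro y
    exact g.2 y

end Pool.Agent.H.MP_144feb_an
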