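import Pool.Agent.H.MP_144feb_an.Lang

/-!
# The swap automorphism of a general subshift
-/

namespace Pool.Agent.H.MP_144feb_an

variable {A : Type*}

theorem win_drop_take (x : ℤ → A) (i : ℤ) (n j p : ℕ) (h : j + p ≤ n) :
    ((win x i n).drop j).take p = win x (i + j) p := by
  obtain ⟨c, rfl⟩ : ∃ c, n = j + (p + c) := ⟨n - (j + p), by omega⟩
  rw [win_add, win_add, List.drop_left' (win_length _ _ _), List.take_left' (win_length _ _ _)]

theorem win_eq_append3 (x : ℤ → A) (i : ℤ) (P V S : List A) :
    win x i (P.length + V.length + S.length) = P ++ V ++ S ↔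
      win x i P.length = P ∧ win x (i + P.length) V.length = V ∧
        win x (i + P.length + V.length) S.length = S := by
  have hc : i + ((P.length + V.length : ℕ) : ℤ) = i + P.length + V.length := by
    push_cast
    ring
  rw [win_add, win_add, hc]
  constructor
  · intro h
    obtain ⟨h1, h2⟩ := List.append_inj h (by simp [win_length])
    obtain ⟨h3, h4⟩ := List.append_inj h1 (by simp [win_length])
    exact ⟨h3, h4, h2⟩
  · rintro ⟨h1, h2, h3⟩
    rw [h1, h2, h3]

theorem mem_Occ {P V V' S : List A} (hlen : V.length = V'.length) {x : ℤ → A} {i : ℤ} :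
    i ∈ Occ P V V' S x ↔ win x i P.length = P ∧
      (win x (i + P.length) V.length = V ∨ win x (i + P.length) V.length = V') ∧
      win x (i + P.length + V.length) S.length = S := by
  show (_ ∨ _) ↔ _
  have h1 := win_eq_append3 x i P V S
  have h2 := win_eq_append3 x i P V' S
  rw [← hlen] at h2
  rw [h1, h2]
  tauto

theorem occ_spacing (P V V' S : List A) (hlen : V.length = V'.length)
    (h1 : NoOv P (V ++ S)) (h2 : NoOv P (V' ++ S)) (x : ℤ → A) (i i' : ℤ)
    (hi : i ∈ Occ P V V' S x) (hi' : i' ∈ Occ P V V' S x) (h : i < i') :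
    i + V.length + S.length < i' := by
  by_contra hcon
  obtain ⟨j, hj⟩ : ∃ j : ℕ, i' = i + j := ⟨(i' - i).toNat, by omega⟩
  have hj0 : 0 < j := by omega
  have hjle : j ≤ V.length + S.length := by omega
  have h3 := ((mem_Occ hlen).mp hi').1
  have h4 : ((win x i (P.length + V.length + S.length)).drop j).take P.length = P := by
    rw [win_drop_take x i _ j P.length (by omega), ← hj]
    exact h3
  rcases hi with hi | hi
  · rw [hi, List.append_assoc] at h4
    exact h1 j hj0 (by rw [List.length_append]; exact hjle) h4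
  · rw [hi, List.append_assoc] at h4
    exact h2 j hj0 (by rw [List.length_append, ← hlen]; exact hjle) h4

namespace Swap

open Classical in
/-- exchange of `V` and `V'` -/
noncomputable def flp (V V' w : List A) : List A := if w = V then V' else V

theorem flp_length {V V' : List A} (hlen : V.length = V'.length) (w : List A) :
    (flp V V' w).length = V.length := by
  unfold flp
  split_ifs
  · exact hlen.symm
  · rfl

theorem flp_flp {V V' w : List A} (hw : w = V ∨ w = V') : flp V V' (flp V V' w) = w := by
  unfold flp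
  by_cases h : w = V
  · rw [if_pos h]
    by_cases h2 : V' = V
    · rw [if_pos h2, h2, h]
    · rw [if_neg h2, h]
  · rw [if_neg h, if_pos rfl]
    rcases hw with h3 | h3
    · exact absurd h3 h
    · exact h3.symm

theorem flp_mem (V V' w : List A) : flp V V' w = V ∨ flp V V' w = V' := by
  unfold flp
  split_ifs
  · exact Or.inr rfl
  · exact Or.inl rfl

/-- `y` arises from `x` by exchanging `V` and `V'` in the `V`-regions of the positions in `F` -/
def IsSw (p : ℕ) (V V' : List A) (F : Set ℤ) (x y : ℤ → A) : Prop :=
  (∀ i ∈ F, win y (i + p) V.length = flp V V' (win x (i + p) V.length)) ∧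
    ∀ j, (∀ i ∈ F, ¬ (i + p ≤ j ∧ j < i + p + V.length)) → y j = x j

/-- the `V`-regions of the positions in `F` are disjoint -/
def Sep (p v : ℕ) (F : Set ℤ) : Prop :=
  ∀ i ∈ F, ∀ i' ∈ F, ∀ j : ℤ, i + p ≤ j → j < i + p + v → i' + p ≤ j → j < i' + p + v → i = i'

theorem win_apply {x : ℤ → A} {k : ℤ} {n : ℕ} {w : List A} (h : win x k n = w) {d : ℕ}
    (hd : d < w.length) : x (k + d) = w[d] := by
  subst h
  rw [win_getElem]

theorem exists_isSw {p : ℕ} {V V' : List A} (hlen : V.length = V'.length) {F : Set ℤ}
    (hF : Sep p V.length F) (x : ℤ → A) : ∃ y, IsSw p V V' F x y := by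
  classical
  refine ⟨fun j => if h : ∃ i ∈ F, i + p ≤ j ∧ j < i + p + V.length then
    ((flp V V' (win x (h.choose + p) V.length))[(j - (h.choose + p)).toNat]?).getD (x j)
    else x j, fun i hi => ?_, fun j hj => ?_⟩
  · apply List.ext_getElem
    · rw [win_length, flp_length hlen]
    intro d hd1 hd2
    rw [win_length] at hd1
    rw [win_getElem]
    have h : ∃ i' ∈ F, i' + p ≤ i + p + (d : ℤ) ∧ i + p + (d : ℤ) < i' + p + V.length :=
      ⟨i, hi, by omega, by omega⟩
    rw [dif_pos h]
    have h1 : h.choose = i := by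
      obtain ⟨h2, h3, h4⟩ := h.choose_spec
      exact hF _ h2 _ hi (i + p + d) h3 h4 (by omega) (by omega)
    rw [h1]
    have h2 : (i + p + (d : ℤ) - (i + p)).toNat = d := by omega
    rw [h2, List.getElem?_eq_getElem hd2]
    rfl
  · have h : ¬ ∃ i ∈ F, i + p ≤ j ∧ j < i + p + V.length := by
      rintro ⟨i, hi, h2⟩
      exact hj i hi h2
    simp only [dif_neg h]

theorem IsSw.unique {p : ℕ} {V V' : List A} {F : Set ℤ} {x y z : ℤ → A}
    (hy : IsSw p V V' F x y) (hz : IsSw p V V' F x z) : y = z := by
  funext j
  by_cases h : ∃ i ∈ F, i + p ≤ j ∧ j < i + p + V.length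
  · obtain ⟨i, hi, h1, h2⟩ := h
    have h3 : win y (i + p) V.length = win z (i + p) V.length := by
      rw [hy.1 i hi, hz.1 i hi]
    rw [win_eq_iff] at h3
    have h4 := h3 (j - (i + p)).toNat (by omega)
    have h5 : i + p + ((j - (i + p)).toNat : ℤ) = j := by omega
    rwa [h5] at h4
  · push Not at h
    rw [hy.2 j fun i hi h1 => absurd h1.2 (not_lt.mpr (h i hi h1.1)),
      hz.2 j fun i hi h1 => absurd h1.2 (not_lt.mpr (h i hi h1.1))]

/-- one exchange -/
theorem mem_X_of_replace {L : List A → Prop} (hfac : Factorial L) {V V' : List A}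
    (hint : Inter L V V') {x y : ℤ → A} (hx : x ∈ X L) {k : ℤ}
    (h : (win x k V.length = V ∧ win y k V.length = V') ∨
      (win x k V.length = V' ∧ win y k V.length = V) ∨
      (win x k V.length = win y k V.length))
    (hxy : ∀ j, ¬ (k ≤ j ∧ j < k + V.length) → y j = x j) : y ∈ X L := by
  intro i n
  -- the enlarged window
  obtain ⟨a, ha⟩ : ∃ a : ℕ, (a : ℤ) = |i - k| := ⟨(|i - k|).toNat, by
    rw [Int.toNat_of_nonneg (abs_nonneg _)]⟩
  obtain ⟨b, hb⟩ : ∃ b : ℕ, b = a + n := ⟨_, rfl⟩
  have hi1 : k - a ≤ i := by
    have := neg_abs_le (i - k)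
    omega
  have hi2 : i + n ≤ k - a + ((a + V.length + b : ℕ) : ℤ) := by
    have := le_abs_self (i - k)
    push_cast
    omega
  apply hfac _ _ _ (win_infix y i (k - a) n (a + V.length + b) hi1 hi2)
  have hL := hx (k - a) (a + V.length + b)
  have hc : k - a + ((a + V.length : ℕ) : ℤ) = k + V.length := by
    push_cast
    ring
  have hc2 : k - a + (a : ℤ) = k := by ring
  rw [win_add, win_add, hc, hc2] at hL ⊢
  have h1 : win y (k - a) a = win x (k - a) a := by
    rw [win_eq_iff]
    intro j hj
    exact hxy _ (by omega)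
  have h2 : win y (k + V.length) b = win x (k + V.length) b := by
    rw [win_eq_iff]
    intro j hj
    exact hxy _ (by omega)
  rw [h1, h2]
  rcases h with ⟨h3, h4⟩ | ⟨h3, h4⟩ | h3
  · rw [h4]
    rw [h3] at hL
    exact (hint _ _).mp hL
  · rw [h4]
    rw [h3] at hL
    exact (hint _ _).mpr hL
  · rw [← h3]
    exact hL

section

variable {P V V' S : List A}

theorem region_disjoint (hlen : V.length = V'.length) (hPS : P.length ≤ S.length)
    (h1 : NoOv P (V ++ S)) (h2 : NoOv P (V' ++ S)) {x : ℤ → A} {i i' : ℤ}
    (hi : i ∈ Occ P V V' S x) (hi' : i' ∈ Occ P V V' S x) (hne : i ≠ i') (j : ℤ)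
    (hj1 : i ≤ j) (hj2 : j < i + P.length + V.length + S.length) :
    ¬ (i' + P.length ≤ j ∧ j < i' + P.length + V.length) := by
  rcases lt_or_gt_of_ne hne with h | h
  · have := occ_spacing P V V' S hlen h1 h2 x i i' hi hi' h
    omega
  · have := occ_spacing P V V' S hlen h1 h2 x i' i hi' hi h
    omega

theorem sep_Occ (hlen : V.length = V'.length) (hPS : P.length ≤ S.length)
    (h1 : NoOv P (V ++ S)) (h2 : NoOv P (V' ++ S)) {x : ℤ → A} :
    Sep P.length V.length (Occ P V V' S x) := by
  intro i hi i' hi' j hj1 hj2 hj3 hj4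
  by_contra hne
  exact region_disjoint hlen hPS h1 h2 hi hi' hne j (by omega) (by omega) ⟨hj3, hj4⟩

theorem Sep.mono {p v : ℕ} {F F' : Set ℤ} (h : Sep p v F) (hF : F' ⊆ F) : Sep p v F' :=
  fun i hi i' hi' j h1 h2 h3 h4 => h i (hF hi) i' (hF hi') j h1 h2 h3 h4

/-- outside of the own `V`-region the window of an occurrence is not changed -/
theorem IsSw.eq_on_window (hlen : V.length = V'.length) (hPS : P.length ≤ S.length)
    (h1 : NoOv P (V ++ S)) (h2 : NoOv P (V' ++ S)) {x y : ℤ → A} {F : Set ℤ}
    (hF : F ⊆ Occ P V V' S x) (hy : IsSw P.length V V' F x y) {i : ℤ}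
    (hi : i ∈ Occ P V V' S x) (j : ℤ)
    (hj1 : i ≤ j) (hj2 : j < i + P.length + V.length + S.length)
    (hj3 : i ∈ F → ¬ (i + P.length ≤ j ∧ j < i + P.length + V.length)) : y j = x j := by
  apply hy.2
  intro i' hi'
  by_cases hne : i = i'
  · subst hne
    exact hj3 hi'
  · exact region_disjoint hlen hPS h1 h2 hi (hF hi') hne j hj1 hj2

theorem IsSw.occ_subset (hlen : V.length = V'.length) (hPS : P.length ≤ S.length)
    (h1 : NoOv P (V ++ S)) (h2 : NoOv P (V' ++ S)) {x y : ℤ → A} {F : Set ℤ}
    (hF : F ⊆ Occ P V V' S x) (hy : IsSw P.length V V' F x y) :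
    Occ P V V' S x ⊆ Occ P V V' S y := by
  intro i hi
  obtain ⟨h3, h4, h5⟩ := (mem_Occ hlen).mp hi
  rw [mem_Occ hlen]
  refine ⟨?_, ?_, ?_⟩
  · conv_rhs => rw [← h3]
    rw [win_eq_iff]
    intro j hj
    exact hy.eq_on_window hlen hPS h1 h2 hF hi _ (by omega) (by omega) fun _ => by omega
  · by_cases hiF : i ∈ F
    · rw [hy.1 i hiF]
      exact flp_mem _ _ _
    · have h6 : win y (i + P.length) V.length = win x (i + P.length) V.length := by
        rw [win_eq_iff]
        intro j hj
        exact hy.eq_on_window hlen hPS h1 h2 hF hi _ (by omega) (by omega) fun h => absurd h hiF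
      rw [h6]
      exact h4
  · conv_rhs => rw [← h5]
    rw [win_eq_iff]
    intro j hj
    exact hy.eq_on_window hlen hPS h1 h2 hF hi _ (by omega) (by omega) fun _ => by omega

theorem IsSw.occ_eq (hlen : V.length = V'.length) (hPS : P.length ≤ S.length)
    (h1 : NoOv P (V ++ S)) (h2 : NoOv P (V' ++ S)) {x y : ℤ → A} {F : Set ℤ}
    (hF : F ⊆ Occ P V V' S x) (hy : IsSw P.length V V' F x y) :
    Occ P V V' S y = Occ P V V' S x := by
  apply Set.Subset.antisymm _ (hy.occ_subset hlen hPS h1 h2 hF)
  intro i hi
  by_contra hcon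
  have h3 : ∀ j, i ≤ j → j < i + P.length + V.length + S.length → y j = x j := by
    intro j hj1 hj2
    apply hy.2
    intro i' hi'
    have hi'y := hy.occ_subset hlen hPS h1 h2 hF (hF hi')
    have hne : i ≠ i' := by
      rintro rfl
      exact hcon (hF hi')
    exact region_disjoint hlen hPS h1 h2 hi hi'y hne j hj1 hj2
  apply hcon
  obtain ⟨h4, h5, h6⟩ := (mem_Occ hlen).mp hi
  rw [mem_Occ hlen]
  have h7 : win y i P.length = win x i P.length := by
    rw [win_eq_iff]
    intro j hj
    exact h3 _ (by omega) (by omega)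
  have h8 : win y (i + P.length) V.length = win x (i + P.length) V.length := by
    rw [win_eq_iff]
    intro j hj
    exact h3 _ (by omega) (by omega)
  have h9 : win y (i + P.length + V.length) S.length =
      win x (i + P.length + V.length) S.length := by
    rw [win_eq_iff]
    intro j hj
    exact h3 _ (by omega) (by omega)
  rw [h7] at h4
  rw [h8] at h5
  rw [h9] at h6
  exact ⟨h4, h5, h6⟩

/-- exchanging back -/
theorem IsSw.symm (hlen : V.length = V'.length) {x y : ℤ → A} {F : Set ℤ}
    (hF : F ⊆ Occ P V V' S x) (hy : IsSw P.length V V' F x y) :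
    IsSw P.length V V' F y x := by
  refine ⟨fun i hi => ?_, fun j hj => (hy.2 j hj).symm⟩
  rw [hy.1 i hi, flp_flp]
  exact ((mem_Occ hlen).mp (hF hi)).2.1

theorem IsSw.mem_X_finset {L : List A → Prop} (hfac : Factorial L) (hint : Inter L V V')
    (hlen : V.length = V'.length) (hPS : P.length ≤ S.length)
    (h1 : NoOv P (V ++ S)) (h2 : NoOv P (V' ++ S)) {x : ℤ → A} (hx : x ∈ X L)
    (F : Finset ℤ) : (F : Set ℤ) ⊆ Occ P V V' S x → ∀ y, IsSw P.length V V' F x y → y ∈ X L := by
  classical
  induction F using Finset.induction_on with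
  | empty =>
    intro _ y hy
    have : y = x := funext fun j => hy.2 j (by simp)
    rwa [this]
  | insert i F hiF ih =>
    intro hF y hy
    have hFsub : (F : Set ℤ) ⊆ Occ P V V' S x := fun k hk => hF (by simp [show k ∈ F from hk])
    have hi : i ∈ Occ P V V' S x := hF (by simp)
    obtain ⟨z, hz⟩ := exists_isSw (p := P.length) (V := V) (V' := V') hlen (F := (F : Set ℤ))
      ((sep_Occ hlen hPS h1 h2).mono hFsub) x
    have hzX := ih hFsub z hz
    have hzi : win z (i + P.length) V.length = win x (i + P.length) V.length := by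
      rw [win_eq_iff]
      intro j hj
      exact hz.eq_on_window hlen hPS h1 h2 hFsub hi _ (by omega) (by omega)
        fun h => absurd h hiF
    have hyi := hy.1 i (by simp)
    refine mem_X_of_replace hfac hint hzX (k := i + P.length) ?_ ?_
    · rw [hzi, hyi]
      rcases ((mem_Occ hlen).mp hi).2.1 with h3 | h3
      · left
        rw [h3]
        exact ⟨rfl, by simp [flp]⟩
      · rw [h3]
        by_cases h4 : V' = V
        · right; right
          simp [flp, h4]
        · right; left
          exact ⟨rfl, by simp [flp, h4]⟩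
    · intro j hj
      by_cases h : ∃ k ∈ F, k + P.length ≤ j ∧ j < k + P.length + V.length
      · obtain ⟨k, hk, h3, h4⟩ := h
        have h5 : win y (k + P.length) V.length = win z (k + P.length) V.length := by
          rw [hy.1 k (by simp [hk]), hz.1 k hk]
        rw [win_eq_iff] at h5
        have h6 := h5 (j - (k + P.length)).toNat (by omega)
        have h7 : k + P.length + ((j - (k + P.length)).toNat : ℤ) = j := by omega
        rwa [h7] at h6
      · push Not at h
        rw [hz.2 j fun k hk h3 => absurd h3.2 (not_lt.mpr (h k hk h3.1))]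
        apply hy.2
        intro k hk h3
        rw [Finset.mem_coe, Finset.mem_insert] at hk
        rcases hk with rfl | hk
        · exact hj h3
        · exact absurd h3.2 (not_lt.mpr (h k hk h3.1))

theorem IsSw.mem_X {L : List A → Prop} (hfac : Factorial L) (hint : Inter L V V')
    (hlen : V.length = V'.length) (hPS : P.length ≤ S.length)
    (h1 : NoOv P (V ++ S)) (h2 : NoOv P (V' ++ S)) {x y : ℤ → A} (hx : x ∈ X L)
    (hy : IsSw P.length V V' (Occ P V V' S x) x y) : y ∈ X L := by
  classical
  intro i n
  let F : Finset ℤ := (Finset.Icc (i - P.length - V.length) (i + n)).filter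
    fun k => k ∈ Occ P V V' S x
  have hF : (F : Set ℤ) ⊆ Occ P V V' S x := fun k hk => (Finset.mem_filter.mp hk).2
  obtain ⟨z, hz⟩ := exists_isSw (p := P.length) (V := V) (V' := V') hlen (F := (F : Set ℤ))
    ((sep_Occ hlen hPS h1 h2).mono hF) x
  have hzX := IsSw.mem_X_finset hfac hint hlen hPS h1 h2 hx F hF z hz
  have h3 : win y i n = win z i n := by
    rw [win_eq_iff]
    intro j hj
    by_cases h : ∃ k ∈ Occ P V V' S x, k + P.length ≤ i + (j : ℤ) ∧
        i + (j : ℤ) < k + P.length + V.length
    · obtain ⟨k, hk, h4, h5⟩ := h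
      have hkF : k ∈ F := by
        rw [Finset.mem_filter, Finset.mem_Icc]
        exact ⟨⟨by omega, by omega⟩, hk⟩
      have h6 : win y (k + P.length) V.length = win z (k + P.length) V.length := by
        rw [hy.1 k hk, hz.1 k hkF]
      rw [win_eq_iff] at h6
      have h7 := h6 (i + j - (k + P.length)).toNat (by omega)
      have h8 : k + P.length + ((i + j - (k + P.length)).toNat : ℤ) = i + j := by omega
      rwa [h8] at h7
    · push Not at h
      rw [hy.2 _ fun k hk h4 => absurd h4.2 (not_lt.mpr (h k hk h4.1)),
        hz.2 _ fun k hk h4 => absurd h4.2 (not_lt.mpr (h k (hF hk) h4.1))]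
  rw [h3]
  exact hzX i n

end

end Swap

open Swap in
theorem exists_swap [TopologicalSpace A] [DiscreteTopology A] (L : List A → Prop)
    (hfac : Factorial L) (P V V' S : List A) (hlen : V.length = V'.length)
    (hint : Inter L V V') (hPS : P.length ≤ S.length)
    (h1 : NoOv P (V ++ S)) (h2 : NoOv P (V' ++ S)) :
    ∃ φ : Aut L, ∀ (x : X L) (j : ℤ), ((φ.1 x).1 j ≠ x.1 j ↔
      ∃ i ∈ Occ P V V' S x.1, ∃ d : ℕ, d < V.length ∧ V[d]? ≠ V'[d]? ∧
        j = i + P.length + d) := by
  classical
  have hex : ∀ x : ℤ → A, ∃ y, IsSw P.length V V' (Occ P V V' S x) x y := fun x =>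
    exists_isSw hlen (sep_Occ hlen hPS h1 h2) x
  choose f hf using hex
  have hff : ∀ x, f (f x) = x := by
    intro x
    have h3 := hf (f x)
    rw [(hf x).occ_eq hlen hPS h1 h2 (Set.Subset.refl _)] at h3
    exact h3.unique ((hf x).symm hlen (Set.Subset.refl _))
  have hfX : ∀ x ∈ X L, f x ∈ X L := fun x hx =>
    (hf x).mem_X hfac hint hlen hPS h1 h2 hx
  -- the shift
  have hfs : ∀ (x : ℤ → A) (j : ℤ), f (fun i => x (i + 1)) j = f x (j + 1) := by
    intro x
    have h3 : IsSw P.length V V' (Occ P V V' S fun i => x (i + 1)) (fun i => x (i + 1))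
        (fun j => f x (j + 1)) := by
      have hocc : ∀ i, i ∈ Occ P V V' S (fun i => x (i + 1)) ↔ i + 1 ∈ Occ P V V' S x := by
        intro i
        show (_ ∨ _) ↔ (_ ∨ _)
        rw [win_shift]
      refine ⟨fun i hi => ?_, fun j hj => ?_⟩
      · rw [win_shift, win_shift]
        have h4 := (hf x).1 (i + 1) ((hocc i).mp hi)
        have h5 : i + 1 + (P.length : ℤ) = i + P.length + 1 := by ring
        rwa [h5] at h4
      · apply (hf x).2
        intro i hi h4
        refine hj (i - 1) ((hocc _).mpr (by rwa [sub_add_cancel])) ?_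
        constructor
        · omega
        · omega
    exact fun j => congrFun ((hf _).unique h3) j
  -- locality
  have hloc : ∀ (x y : ℤ → A) (j : ℤ), (∀ k, j - (P.length + V.length + S.length : ℕ) ≤ k →
      k ≤ j + (P.length + V.length + S.length : ℕ) → x k = y k) → f x j = f y j := by
    intro x y j hxy
    have key : ∀ i : ℤ, i + P.length ≤ j → j < i + P.length + V.length →
        (i ∈ Occ P V V' S x ↔ i ∈ Occ P V V' S y) := by
      intro i h3 h4
      have h5 : win x i (P.length + V.length + S.length) =
          win y i (P.length + V.length + S.length) := by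
        rw [win_eq_iff]
        intro k hk
        apply hxy
        · push_cast
          omega
        · push_cast
          omega
      show (_ ∨ _) ↔ (_ ∨ _)
      rw [h5]
    by_cases h : ∃ i ∈ Occ P V V' S x, i + P.length ≤ j ∧ j < i + P.length + V.length
    · obtain ⟨i, hi, h3, h4⟩ := h
      have h5 : win (f x) (i + P.length) V.length = win (f y) (i + P.length) V.length := by
        rw [(hf x).1 i hi, (hf y).1 i ((key i h3 h4).mp hi)]
        congr 1
        rw [win_eq_iff]
        intro k hk
        apply hxy
        · push_cast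
          omega
        · push_cast
          omega
      rw [win_eq_iff] at h5
      have h6 := h5 (j - (i + P.length)).toNat (by omega)
      have h7 : i + P.length + ((j - (i + P.length)).toNat : ℤ) = j := by omega
      rwa [h7] at h6
    · push Not at h
      rw [(hf x).2 j fun i hi h3 => absurd h3.2 (not_lt.mpr (h i hi h3.1)),
        (hf y).2 j fun i hi h3 => absurd h3.2
          (not_lt.mpr (h i ((key i h3.1 h3.2).mpr hi) h3.1))]
      apply hxy
      · push_cast
        omega
      · push_cast
        omega
  have hcont : Continuous fun x : X L => (⟨f x.1, hfX x.1 x.2⟩ : X L) := by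
    apply Continuous.subtype_mk
    apply continuous_pi
    intro j
    have h3 : Continuous fun x : ℤ → A => f x j := by
      rw [continuous_iff_continuousAt]
      intro x
      have h4 : ∀ᶠ y in nhds x, ∀ k ∈ Finset.Icc (j - (P.length + V.length + S.length : ℕ))
          (j + (P.length + V.length + S.length : ℕ)), y k = x k := by
        rw [Filter.eventually_all_finset]
        intro k _
        have h5 : ContinuousAt (fun y : ℤ → A => y k) x := (continuous_apply k).continuousAt
        exact h5.eventually ((isOpen_discrete {x k}).mem_nhds rfl)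
      have h5 : (fun y : ℤ → A => f y j) =ᶠ[nhds x] fun _ => f x j := by
        filter_upwards [h4] with y hy
        exact hloc y x j fun k hk1 hk2 => hy k (Finset.mem_Icc.mpr ⟨hk1, hk2⟩)
      exact (continuousAt_congr h5).mpr continuousAt_const
    exact h3.comp continuous_subtype_val
  let Φ : X L ≃ₜ X L :=
    { toFun := fun x => ⟨f x.1, hfX x.1 x.2⟩
      invFun := fun x => ⟨f x.1, hfX x.1 x.2⟩
      left_inv := fun x => Subtype.ext (hff x.1)
      right_inv := fun x => Subtype.ext (hff x.1)
      continuous_toFun := hcont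
      continuous_invFun := hcont }
  refine ⟨⟨Φ, fun x => ?_⟩, fun x j => ?_⟩
  · apply Subtype.ext
    funext j
    exact hfs x.1 j
  · show f x.1 j ≠ x.1 j ↔ _
    constructor
    · intro h3
      by_contra hcon
      apply h3
      by_cases h : ∃ i ∈ Occ P V V' S x.1, i + P.length ≤ j ∧ j < i + P.length + V.length
      · obtain ⟨i, hi, h4, h5⟩ := h
        obtain ⟨d, hd⟩ : ∃ d : ℕ, j = i + P.length + d := ⟨(j - (i + P.length)).toNat, by omega⟩
        have hdV : d < V.length := by omega
        have hdV' : d < V'.length := by omega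
        have h6 : V[d] = V'[d] := by
          by_contra hne
          apply hcon
          refine ⟨i, hi, d, hdV, ?_, hd⟩
          rw [List.getElem?_eq_getElem hdV, List.getElem?_eq_getElem hdV']
          simpa using hne
        have h7 := (hf x.1).1 i hi
        have h8 : d < (flp V V' (win x.1 (i + P.length) V.length)).length := by
          rw [flp_length hlen]
          exact hdV
        have h9 := win_apply h7 h8
        rw [hd, h9]
        have h10 : ∀ w : List A, w = V ∨ w = V' → ∀ hw : d < w.length, w[d] = V[d] := by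
          rintro w (rfl | rfl) hw
          · rfl
          · exact h6.symm
        rw [h10 _ (flp_mem _ _ _) h8]
        have h11 := ((mem_Occ hlen).mp hi).2.1
        have h12 : d < (win x.1 (i + P.length) V.length).length := by
          rw [win_length]
          exact hdV
        rw [← h10 _ h11 h12, win_getElem]
      · push Not at h
        exact (hf x.1).2 j fun i hi h3 => absurd h3.2 (not_lt.mpr (h i hi h3.1))
    · rintro ⟨i, hi, d, hdV, hne, hd⟩ heq
      have hdV' : d < V'.length := by omega
      rw [List.getElem?_eq_getElem hdV, List.getElem?_eq_getElem hdV'] at hne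
      have hne' : V[d] ≠ V'[d] := fun h => hne (by rw [h])
      have h7 := (hf x.1).1 i hi
      have h8 : d < (flp V V' (win x.1 (i + P.length) V.length)).length := by
        rw [flp_length hlen]
        exact hdV
      have h9 := win_apply h7 h8
      rw [← hd, heq] at h9
      rcases ((mem_Occ hlen).mp hi).2.1 with h11 | h11
      · have h12 := win_apply h11 hdV
        rw [← hd] at h12
        apply hne'
        rw [← h12, h9]
        simp [flp, h11]
      · have h12 := win_apply h11 hdV'
        rw [← hd] at h12
        apply hne'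
        rw [← h12, h9]
        have h13 : V' ≠ V := by
          rintro rfl
          exact hne' rfl
        simp [flp, h11, h13]

end Pool.Agent.H.MP_144feb_an
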